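import Pool.Agent.NBE.P_UPT
import Pool.Agent.NBE.P_SPC

/-!
# Counting eigenvalues: from subspaces to traces
-/

set_option autoImplicit false

open MeasureTheory Complex Set Filter Topology
open scoped ENNReal InnerProductSpace ComplexConjugate

namespace Pool.Agent.NBK

open Pool.Agent.NBL Pool.Agent.NBR Pool.Agent.NBE Pool.Agent.NBE.UPT_

/-- the converse of `core` -/
lemma core' (m : ℕ) (Λ : ℝ) (hΛ : 0 ≤ Λ) (a : Fin m → ℂ)
    (h : ∫ t : ℝ, ‖riemannZeta (1 / 2 + t * I) * DF (m + 1) (Lm m a) (1 / 2 + t * I)‖ ^ 2 /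
        (1 / 4 + t ^ 2) ≤
      Λ * ∫ t : ℝ, ‖DF (m + 1) (Lm m a) (1 / 2 + t * I)‖ ^ 2 / (1 / 4 + t ^ 2)) :
    NBM.Qf m a ≤ Λ * ∑ i, ‖a i‖ ^ 2 := by
  have hpi := Real.pi_pos
  simp_rw [eDF] at h
  rw [QP_mellin, QB_mellin, QB_dcf, QP_dcf] at h
  have eQ : NBM.Qf m a = Q m (xa m a) := by
    unfold NBM.Qf Q
    congr 1
    funext t
    rw [fin_sum fun n => xa m a n * ((n * NBL.h n t : ℝ) : ℂ)]
    congr 2
    exact Finset.sum_congr rfl fun i _ => by rw [xa_apply]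
  have eS : ∑ i, ‖a i‖ ^ 2 = ∑ n ∈ Finset.Icc 1 m, ‖xa m a n‖ ^ 2 := by
    rw [fin_sum fun n => ‖xa m a n‖ ^ 2]
    exact Finset.sum_congr rfl fun i _ => by rw [xa_apply]
  rw [eQ, eS]
  obtain ⟨r1, r2⟩ := Rm_two m (xa m a)
  have h2 : 2 * Real.pi * Q m (xa m a) ≤ 2 * Real.pi * (Λ * Rm m fun n => n * xa m a n) := by
    refine h.trans (le_of_eq ?_)
    ring
  have h3 : Q m (xa m a) ≤ Λ * Rm m fun n => n * xa m a n :=
    le_of_mul_le_mul_left h2 (by positivity)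
  exact h3.trans (mul_le_mul_of_nonneg_left r2 hΛ)

/-- the number of large eigenvalues is at most the codimension -/
lemma count {m : ℕ} {v : OrthonormalBasis (Fin m) ℂ (EuclideanSpace ℂ (Fin m))} {lam : Fin m → ℝ}
    (hq : ∀ a : EuclideanSpace ℂ (Fin m), NBM.Qf m a = ∑ i, lam i * ‖⟪v i, a⟫_ℂ‖ ^ 2)
    {Λ : ℝ} (hΛ : 0 ≤ Λ) {V : Submodule ℂ (Fin (m + 1) → ℂ)}
    (hV : ∀ c ∈ V, ∫ t : ℝ, ‖riemannZeta (1 / 2 + t * I) * DF (m + 1) c (1 / 2 + t * I)‖ ^ 2 /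
        (1 / 4 + t ^ 2) ≤
      Λ * ∫ t : ℝ, ‖DF (m + 1) c (1 / 2 + t * I)‖ ^ 2 / (1 / 4 + t ^ 2)) :
    (Finset.univ.filter fun i => Λ < lam i).card + Module.finrank ℂ V ≤ m + 1 := by
  classical
  set J : Finset (Fin m) := Finset.univ.filter fun i => Λ < lam i with hJ
  obtain ⟨W, hW, hx⟩ := SPC_.span_part v J
  have hd : Disjoint (W.map (Lm m)) V := by
    rw [Submodule.disjoint_def]
    rintro c ⟨a, ha, rfl⟩ hc
    have h1 := core' m Λ hΛ a (hV _ hc)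
    obtain ⟨x, hxa, hx0⟩ := hx a ha
    have h2 : NBM.Qf m a = NBM.Qf m x := by
      congr 1
      exact funext fun i => (hxa i).symm
    have hn : ∑ i, ‖a i‖ ^ 2 = ∑ i, ‖⟪v i, x⟫_ℂ‖ ^ 2 := by
      rw [v.sum_sq_norm_inner_right x, EuclideanSpace.norm_sq_eq]
      exact Finset.sum_congr rfl fun i _ => by rw [hxa i]
    rw [h2, hq x, hn, Finset.mul_sum] at h1
    have h3 : ∑ i, (lam i - Λ) * ‖⟪v i, x⟫_ℂ‖ ^ 2 ≤ 0 := by
      have : ∑ i, (lam i - Λ) * ‖⟪v i, x⟫_ℂ‖ ^ 2 =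
          ∑ i, lam i * ‖⟪v i, x⟫_ℂ‖ ^ 2 - ∑ i, Λ * ‖⟪v i, x⟫_ℂ‖ ^ 2 := by
        rw [← Finset.sum_sub_distrib]
        exact Finset.sum_congr rfl fun i _ => by ring
      linarith
    have h4 : ∀ i ∈ Finset.univ, 0 ≤ (lam i - Λ) * ‖⟪v i, x⟫_ℂ‖ ^ 2 := by
      intro i _
      by_cases hi : i ∈ J
      · rw [hJ, Finset.mem_filter] at hi
        exact mul_nonneg (by linarith [hi.2]) (by positivity)
      · rw [hx0 i hi]
        simp
    have h5 : ∀ i, ⟪v i, x⟫_ℂ = 0 := by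
      intro i
      by_cases hi : i ∈ J
      · have h6 := (Finset.sum_eq_zero_iff_of_nonneg h4).1
          (le_antisymm h3 (Finset.sum_nonneg h4)) i (Finset.mem_univ i)
        rw [hJ, Finset.mem_filter] at hi
        rcases mul_eq_zero.1 h6 with h7 | h7
        · linarith [hi.2]
        · exact norm_eq_zero.1 (pow_eq_zero_iff two_ne_zero |>.1 h7)
      · exact hx0 i hi
    have h6 : ∑ i, ‖a i‖ ^ 2 = 0 := by
      rw [hn]
      exact Finset.sum_eq_zero fun i _ => by rw [h5 i]; simp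
    have h7 : a = 0 := by
      funext i
      have h8 := (Finset.sum_eq_zero_iff_of_nonneg fun i _ => by positivity).1 h6 i
        (Finset.mem_univ i)
      exact norm_eq_zero.1 (pow_eq_zero_iff two_ne_zero |>.1 h8)
    rw [h7, map_zero]
  have h9 := Submodule.finrank_add_finrank_le_of_disjoint hd
  rw [Module.finrank_fin_fun, ← (Submodule.equivMapOfInjective (Lm m) (Lm_inj m) W).finrank_eq,
    hW] at h9
  exact h9

/-- the layer cake inequality -/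
lemma layer (k : ℕ) {x y : ℝ} (hx : 0 ≤ x) (hy : 1 ≤ y) (J : ℕ) (h : x ≤ y ^ (J + 1)) :
    x ^ k ≤ y ^ k + ∑ j ∈ Finset.range J, if y ^ (j + 1) < x then (y ^ (j + 2)) ^ k else 0 := by
  have hy0 : 0 < y := by linarith
  induction J with
  | zero => simpa using pow_le_pow_left₀ hx (by simpa using h) k
  | succ J ih =>
    rw [Finset.sum_range_succ]
    by_cases h1 : x ≤ y ^ (J + 1)
    · have h2 := ih h1
      have h3 : (0 : ℝ) ≤ if y ^ (J + 1) < x then (y ^ (J + 2)) ^ k else 0 := by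
        split_ifs <;> positivity
      linarith
    · rw [if_pos (not_le.1 h1)]
      have h2 : x ^ k ≤ (y ^ (J + 2)) ^ k := pow_le_pow_left₀ hx h k
      have h3 : 0 ≤ ∑ j ∈ Finset.range J, if y ^ (j + 1) < x then (y ^ (j + 2)) ^ k else 0 :=
        Finset.sum_nonneg fun j _ => by split_ifs <;> positivity
      have h4 : 0 ≤ y ^ k := by positivity
      linarith

end Pool.Agent.NBK
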