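import Pool.Agent.NBK.MuR
import Pool.Agent.NBM.P_UBH
import Pool.Agent.NBM.P_UBW

/-!
# Moments with real exponents bound the number of large eigenvalues
-/

set_option autoImplicit false

open MeasureTheory Set
open scoped InnerProductSpace ENNReal

namespace Pool.Agent.NBK

open Pool.Agent.NBL Pool.Agent.NBM Pool.Agent.NBM.UBH_

/-- the threshold splitting with a weight -/
lemma splitW {p : ℝ} (hp : 1 ≤ p) {x Λ o : ℝ} (hx : 0 ≤ x) (hΛ : 0 < Λ) (ho : 0 < o) :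
    x ^ 2 ≤ Λ * o + Λ ^ (-(p - 1)) * (x ^ (2 * p) * o ^ (-(p - 1))) := by
  have h := splitR hp x (Λ * o) hx (by positivity)
  rw [Real.mul_rpow hΛ.le ho.le] at h
  linarith

theorem cnt_of_mom (hUBW : NBM.T_UBW) (hPLN : NBM.T_PLN) (hINR : T_INR) {p θ : ℝ} (hp : 1 ≤ p)
    (hθ : 1 ≤ θ) (hθp : θ ≤ p) (H : MomR p θ) {ε : ℝ} (hε : 0 < ε) : ∃ C : ℝ, 0 ≤ C ∧
    ∀ N : ℕ, 1 ≤ N → ∀ (v : OrthonormalBasis (Fin N) ℂ (EuclideanSpace ℂ (Fin N)))
      (lam : Fin N → ℝ), Dg N v lam → ∀ Λ : ℝ, 0 < Λ →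
        ((Finset.univ.filter fun i => Λ < lam i).card : ℝ) * Λ ^ p ≤ C * (N : ℝ) ^ (θ + ε) := by
  have hp0 : 0 < p := by linarith
  set β : ℝ := 1 - 1 / (2 * p) with hβ
  have hβ0 : 0 ≤ β := by
    have : 1 / (2 * p) ≤ 1 := by rw [div_le_one (by positivity)]; linarith
    linarith
  have hβ1 : β < 1 := by
    have : 0 < 1 / (2 * p) := by positivity
    linarith
  obtain ⟨C₀, hC₀, hW⟩ := hUBW β hβ0 hβ1
  obtain ⟨C₁, hC₁, hI⟩ := hINR p θ hp hθ hθp H ε hε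
  set c : ℝ := Real.pi / C₀ with hc
  have hpi := Real.pi_pos
  have hc0 : 0 < c := by positivity
  refine ⟨1 / Real.pi * c ^ (-(p - 1)) * C₁, by positivity, ?_⟩
  intro N hN v lam hD Λ hΛ
  obtain ⟨hlam, hQ⟩ := hD
  have hcΛ : 0 < c * Λ := by positivity
  -- the eigenvectors
  have hnorm : ∀ i, ∑ j, ‖v i j‖ ^ 2 = 1 := by
    intro i
    rw [← EuclideanSpace.norm_sq_eq, v.orthonormal.1 i, one_pow]
  have hQi : ∀ i, Qf N (v i) = lam i := by
    intro i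
    rw [hQ (v i), Finset.sum_eq_single i]
    · rw [inner_self_eq_norm_sq_to_K, v.orthonormal.1 i]
      simp
    · intro j _ hj
      rw [v.orthonormal.2 hj]
      simp
    · intro h
      exact absurd (Finset.mem_univ i) h
  set F : ℝ → ℝ := fun t => Z t ^ (2 * p) * om N β t ^ (-(p - 1)) with hF
  have hF0 : ∀ t, 0 ≤ F t := fun t =>
    mul_nonneg (Real.rpow_nonneg (norm_nonneg _) _) (Real.rpow_nonneg (om_pos N β t).le _)
  have hFm : Measurable F :=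
    ((zp_cont (by linarith : 0 ≤ 2 * p)).measurable).mul ((om_meas N β).pow_const _)
  have htm : ∀ i, Measurable fun t : ℝ => ‖tr N (v i) t‖ₑ ^ 2 := fun i =>
    (tr_cont N (v i)).measurable.enorm.pow_const 2
  have hm : ∀ i, Measurable fun t : ℝ => ENNReal.ofReal (F t) * ‖tr N (v i) t‖ₑ ^ 2 := fun i =>
    (ENNReal.measurable_ofReal.comp hFm).mul (htm i)
  have hgm : ∀ i, Measurable fun t : ℝ => ENNReal.ofReal (om N β t) * ‖tr N (v i) t‖ₑ ^ 2 :=
    fun i => (ENNReal.measurable_ofReal.comp (om_meas N β)).mul (htm i)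
  set X : Fin N → ℝ≥0∞ := fun i => ∫⁻ t : ℝ, ENNReal.ofReal (F t) * ‖tr N (v i) t‖ₑ ^ 2 with hX
  set Y : ℝ≥0∞ := ENNReal.ofReal (1 / (2 * Real.pi) * (c * Λ) ^ (-(p - 1))) with hY
  have hone : ∀ i, ENNReal.ofReal (lam i) ≤ ENNReal.ofReal (Λ / 2) + Y * X i := by
    intro i
    rw [← hQi, (hPLN N (v i)).1]
    have h1 : ∀ t : ℝ, ENNReal.ofReal (Z t ^ 2) * ‖tr N (v i) t‖ₑ ^ 2 ≤
        ENNReal.ofReal (c * Λ) * (ENNReal.ofReal (om N β t) * ‖tr N (v i) t‖ₑ ^ 2) +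
        ENNReal.ofReal ((c * Λ) ^ (-(p - 1))) *
          (ENNReal.ofReal (F t) * ‖tr N (v i) t‖ₑ ^ 2) := by
      intro t
      have h2 := splitW hp (x := Z t) (norm_nonneg _) hcΛ (om_pos N β t)
      rw [← mul_assoc, ← mul_assoc, ← ENNReal.ofReal_mul hcΛ.le,
        ← ENNReal.ofReal_mul (Real.rpow_nonneg hcΛ.le _), ← add_mul,
        ← ENNReal.ofReal_add (mul_nonneg hcΛ.le (om_pos N β t).le)
          (mul_nonneg (Real.rpow_nonneg hcΛ.le _) (hF0 t))]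
      gcongr
    have h2 : ∫⁻ t : ℝ, ENNReal.ofReal (Z t ^ 2) * ‖tr N (v i) t‖ₑ ^ 2 ≤
        ENNReal.ofReal (c * Λ) * ENNReal.ofReal C₀ +
          ENNReal.ofReal ((c * Λ) ^ (-(p - 1))) * X i := by
      refine (lintegral_mono h1).trans ?_
      rw [lintegral_add_left ((hgm i).const_mul _), lintegral_const_mul _ (hgm i),
        lintegral_const_mul _ (hm i)]
      have h3 := hW N hN (v i)
      rw [hnorm i, mul_one] at h3
      gcongr
    refine (mul_le_mul_right h2 _).trans ?_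
    have h4 : 1 / (2 * Real.pi) * (c * Λ * C₀) = Λ / 2 := by
      rw [hc]
      field_simp
    rw [mul_add, ← ENNReal.ofReal_mul hcΛ.le, ← ENNReal.ofReal_mul (by positivity), h4,
      ← mul_assoc, ← ENNReal.ofReal_mul (by positivity), hY]
  classical
  set J : Finset (Fin N) := Finset.univ.filter fun i => Λ < lam i with hJ
  have hhalf : ∀ i ∈ J, ENNReal.ofReal (Λ / 2) ≤ Y * X i := by
    intro i hi
    rw [hJ, Finset.mem_filter] at hi
    have h1 : ENNReal.ofReal (Λ / 2) + ENNReal.ofReal (Λ / 2) ≤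
        ENNReal.ofReal (Λ / 2) + Y * X i := by
      rw [← ENNReal.ofReal_add (by linarith) (by linarith), add_halves]
      exact (ENNReal.ofReal_le_ofReal hi.2.le).trans (hone i)
    exact (ENNReal.add_le_add_iff_left ENNReal.ofReal_ne_top).1 h1
  have hsum : ∑ i, X i ≤ ENNReal.ofReal (C₁ * (N : ℝ) ^ (θ + ε)) := by
    refine le_trans ?_ (hI N hN)
    rw [hX]
    simp only
    rw [← lintegral_finsetSum _ fun i _ => hm i]
    refine lintegral_mono fun t => ?_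
    have hb := bessel_kr v Finset.univ t
    have h3 : ∑ i, ‖tr N (v i) t‖ₑ ^ 2 ≤ ENNReal.ofReal (kr N t) := by
      simp_rw [enorm_sq]
      rw [← ENNReal.ofReal_sum_of_nonneg fun _ _ => by positivity]
      exact ENNReal.ofReal_le_ofReal hb
    rw [← Finset.mul_sum]
    calc ENNReal.ofReal (F t) * ∑ i, ‖tr N (v i) t‖ₑ ^ 2
        ≤ ENNReal.ofReal (F t) * ENNReal.ofReal (kr N t) := by gcongr
      _ = ENNReal.ofReal (Z t ^ (2 * p) * kr N t * om N β t ^ (-(p - 1))) := by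
          rw [← ENNReal.ofReal_mul (hF0 t)]
          congr 1
          rw [hF]
          ring
  have htot : (J.card : ℝ≥0∞) * ENNReal.ofReal (Λ / 2) ≤
      Y * ENNReal.ofReal (C₁ * (N : ℝ) ^ (θ + ε)) := by
    calc (J.card : ℝ≥0∞) * ENNReal.ofReal (Λ / 2) = ∑ _i ∈ J, ENNReal.ofReal (Λ / 2) := by
          rw [Finset.sum_const, nsmul_eq_mul]
      _ ≤ ∑ i ∈ J, Y * X i := Finset.sum_le_sum hhalf
      _ ≤ ∑ i, Y * X i := Finset.sum_le_sum_of_subset (Finset.subset_univ _)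
      _ = Y * ∑ i, X i := by rw [Finset.mul_sum]
      _ ≤ _ := by gcongr
  have hcast : (J.card : ℝ≥0∞) = ENNReal.ofReal (J.card : ℝ) := by
    rw [ENNReal.ofReal_natCast]
  rw [hcast, hY, ← ENNReal.ofReal_mul (Nat.cast_nonneg _), ← ENNReal.ofReal_mul (by positivity),
    ENNReal.ofReal_le_ofReal_iff (by positivity)] at htot
  have hΛp : 0 < Λ ^ (p - 1) := Real.rpow_pos_of_pos hΛ _
  have h5 := mul_le_mul_of_nonneg_left htot (by positivity : 0 ≤ 2 * Λ ^ (p - 1))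
  have e1 : 2 * Λ ^ (p - 1) * ((J.card : ℝ) * (Λ / 2)) = (J.card : ℝ) * Λ ^ p := by
    have : Λ ^ p = Λ ^ (p - 1) * Λ := by
      nth_rewrite 3 [← Real.rpow_one Λ]
      rw [← Real.rpow_add hΛ]
      congr 1
      ring
    rw [this]
    ring
  have e2 : 2 * Λ ^ (p - 1) * (1 / (2 * Real.pi) * (c * Λ) ^ (-(p - 1)) *
      (C₁ * (N : ℝ) ^ (θ + ε))) = 1 / Real.pi * c ^ (-(p - 1)) * C₁ * (N : ℝ) ^ (θ + ε) := by
    rw [Real.mul_rpow hc0.le hΛ.le]
    have h6 : Λ ^ (p - 1) * Λ ^ (-(p - 1)) = 1 := by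
      rw [← Real.rpow_add hΛ, add_neg_cancel, Real.rpow_zero]
    calc 2 * Λ ^ (p - 1) * (1 / (2 * Real.pi) * (c ^ (-(p - 1)) * Λ ^ (-(p - 1))) *
        (C₁ * (N : ℝ) ^ (θ + ε))) = (Λ ^ (p - 1) * Λ ^ (-(p - 1))) *
          (1 / Real.pi * c ^ (-(p - 1)) * C₁ * (N : ℝ) ^ (θ + ε)) := by
          field_simp
      _ = _ := by rw [h6, one_mul]
  rw [e1, e2] at h5
  exact h5

end Pool.Agent.NBK
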