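import Pool.Agent.NBK.Kdef

/-!
# Growth, codimensions and an explicit sequence
-/

set_option autoImplicit false

open MeasureTheory Set Filter Topology

namespace Pool.Agent.NBK

open Pool.Agent.NBL

/-- **Growth, codimensions and an explicit sequence** -/
theorem growth_final2 (A : ℝ) (hA : 0 ≤ A) (hA1 : A < 1 / 2) : List.TFAE [
    (∀ ε : ℝ, 0 < ε → ∃ C : ℝ, ∀ t : ℝ,
      ‖riemannZeta (1 / 2 + t * Complex.I)‖ ≤ C * (1 + |t|) ^ (A + ε)),
    (∀ a : ℝ, 2 * A < a → ∃ N₀ : ℕ, ∀ N : ℕ, N₀ ≤ N → codim a N = 0),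
    (∀ a : ℝ, 2 * A < a →
      Tendsto (fun N : ℕ => (codim a N : ℝ) / Real.log N) atTop (𝓝 0)),
    (∀ ε : ℝ, 0 < ε → ∃ C : ℝ, ∀ r : ℕ, 1 ≤ r →
      ∑ m ∈ Finset.Icc 1 (r ^ 3), (∑ i ∈ Finset.range r,
        (-1 : ℝ) ^ i * Int.fract ((m : ℝ) / ⌈(5 * r : ℝ) * (2 : ℝ) ^ (i / r : ℝ)⌉₊)) ^ 2 /
          (m : ℝ) ^ 2 ≤ C * (r : ℝ) ^ (2 * A - 1 + ε))] := by
  have h1 := growth_final A hA hA1
  have h2 := exponent_final3 A hA hA1
  tfae_have 1 ↔ 2 := h1.out 0 1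
  tfae_have 1 ↔ 3 := h1.out 0 2
  tfae_have 1 → 4 := by
    intro h ε hε
    have h3 := (h2.out 0 2).1 h
    obtain ⟨B, hB1, hB2, hB3⟩ : ∃ B : ℝ, A < B ∧ B < 1 / 2 ∧ 2 * B - 1 ≤ 2 * A - 1 + ε := by
      refine ⟨(A + min (1 / 2) (A + ε / 2)) / 2, ?_, ?_, ?_⟩
      · have : A < min (1 / 2) (A + ε / 2) := lt_min hA1 (by linarith)
        linarith
      · have : min (1 / 2) (A + ε / 2) ≤ 1 / 2 := min_le_left _ _
        linarith
      · have : min (1 / 2) (A + ε / 2) ≤ A + ε / 2 := min_le_right _ _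
        linarith
    obtain ⟨C, hC⟩ := h3 B hB1 hB2
    refine ⟨|C|, fun r hr => (hC r).trans ?_⟩
    have hr1 : (1 : ℝ) ≤ r := by exact_mod_cast hr
    exact mul_le_mul (le_abs_self C) (Real.rpow_le_rpow_of_exponent_le hr1 hB3)
      (Real.rpow_nonneg (by linarith) _) (abs_nonneg C)
  tfae_have 4 → 1 := by
    intro h
    refine (h2.out 0 2).2 ?_
    intro B hB1 hB2
    obtain ⟨C, hC⟩ := h (2 * (B - A)) (by linarith)
    refine ⟨C, fun r => ?_⟩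
    rcases Nat.eq_zero_or_pos r with h0 | h0
    · rw [h0]
      have : (2 : ℝ) * B - 1 ≠ 0 := by
        intro h5
        linarith
      simp [Real.zero_rpow this]
    · have := hC r h0
      rwa [show 2 * A - 1 + 2 * (B - A) = 2 * B - 1 by ring] at this
  tfae_finish

end Pool.Agent.NBK
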