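import Pool.Agent.NBK.TargetsR
import Pool.Agent.NBM.P_LBF

set_option autoImplicit false

/-! # LFR: the `2p`-th moment from the eigenvalues of `G N`, `p ≥ 1` real (helper2) -/

open MeasureTheory Set
open scoped InnerProductSpace

namespace Pool.Agent.NBK

open Pool.Agent.NBL Pool.Agent.NBM

namespace LFR_

theorem log_rpow_le (p : ℝ) (hp : 1 ≤ p) (ε : ℝ) (hε : 0 < ε) : ∃ C : ℝ, 0 < C ∧ ∀ T : ℝ,
    1 ≤ T → Real.log T ^ (2 * p) ≤ C * T ^ (ε / 2) := by
  have hp' : (0 : ℝ) < p := by linarith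
  have hδ : 0 < ε / (4 * p) := by positivity
  refine ⟨(1 / (ε / (4 * p))) ^ (2 * p), Real.rpow_pos_of_pos (by positivity) _,
    fun T hT => ?_⟩
  have hT0 : (0 : ℝ) ≤ T := by linarith
  have h1 := Real.log_le_rpow_div hT0 hδ
  have h2 : Real.log T ^ (2 * p) ≤ (T ^ (ε / (4 * p)) / (ε / (4 * p))) ^ (2 * p) :=
    Real.rpow_le_rpow (Real.log_nonneg hT) h1 (by linarith)
  refine h2.trans (le_of_eq ?_)
  have h3 : (T ^ (ε / (4 * p))) ^ (2 * p) = T ^ (ε / 2) := by
    rw [← Real.rpow_mul hT0]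
    congr 1
    field_simp
    ring
  rw [div_eq_mul_one_div, Real.mul_rpow (Real.rpow_nonneg hT0 _) (by positivity), h3]
  ring

end LFR_

/-- LFR: the `2p`-th moment from the eigenvalues of `G N` -/
theorem p_LFR (hWSR : T_WSR) (hLTR : T_LTR) : T_LFR := by
  intro p θ hp hθ hTr ε hε
  obtain ⟨C1, T₀, hC1, hT₀, h1⟩ := hWSR p hp
  obtain ⟨C2, hC2, h2⟩ := hLTR p hp
  obtain ⟨C3', h3'⟩ := hTr (ε / 2) (by linarith)
  obtain ⟨C4, hC4, h4⟩ := LFR_.log_rpow_le p hp ε hε
  have hp0 : (0 : ℝ) < p := by linarith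
  set C3 : ℝ := max C3' 0 with hC3
  have hC30 : 0 ≤ C3 := le_max_right _ _
  set I0 : ℝ := ∫ t in (0 : ℝ)..T₀, Z t ^ (2 * p) with hI0
  have hZ0 : ∀ t, 0 ≤ Z t := fun t => norm_nonneg _
  have hnn : ∀ t, 0 ≤ Z t ^ (2 * p) := fun t => Real.rpow_nonneg (hZ0 t) _
  have hI0' : 0 ≤ I0 :=
    intervalIntegral.integral_nonneg (by linarith) fun t _ => hnn t
  set B : ℝ := C1 * C4 * (1 + C2 * C3 * 41 ^ (θ + ε / 2)) with hB
  have hB0 : 0 ≤ B := by positivity
  refine ⟨I0 + B, fun T hT => ?_⟩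
  have hTp : (0 : ℝ) < T := by linarith
  have hone : 1 ≤ T ^ (θ + ε) := Real.one_le_rpow hT (by linarith)
  rcases le_total T T₀ with hTT | hTT
  · have hle : ∫ t in (0 : ℝ)..T, Z t ^ (2 * p) ≤ I0 := by
      refine intervalIntegral.integral_mono_interval le_rfl hTp.le hTT
        (Filter.Eventually.of_forall hnn) ?_
      exact (LBF_.Z_cont.rpow_const fun _ => Or.inr (by linarith)).intervalIntegrable _ _
    calc ∫ t in (0 : ℝ)..T, Z t ^ (2 * p) ≤ I0 + B := by linarith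
      _ = (I0 + B) * 1 := by ring
      _ ≤ (I0 + B) * T ^ (θ + ε) := mul_le_mul_of_nonneg_left hone (by linarith)
  · set N : ℕ := ⌈40 * T⌉₊ with hN
    have hN1 : 40 * T ≤ N := Nat.le_ceil _
    have hN2 : (N : ℝ) ≤ 41 * T := by
      have := (Nat.ceil_lt_add_one (by positivity : (0 : ℝ) ≤ 40 * T)).le
      linarith
    have hN20 : 20 ≤ N := by
      have : (20 : ℝ) ≤ N := by linarith
      exact_mod_cast this
    have hw : ∫ t in Icc (-(2 * T)) (2 * T), w t ^ p ≤
        ∫ t in Icc (-(N : ℝ) / 20) (N / 20), w t ^ p := by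
      refine setIntegral_mono_set ?_ ?_ ?_
      · exact (LBF_.w_cont.rpow_const fun _ => Or.inr hp0.le).continuousOn.integrableOn_Icc
      · exact Filter.Eventually.of_forall fun t => Real.rpow_nonneg (LBF_.w_nonneg t) p
      · refine Filter.Eventually.of_forall ?_
        exact Icc_subset_Icc (by linarith) (by linarith)
    obtain ⟨v, lam, hD, hsum⟩ := h3' N hN20
    have ha : ∫ t in Icc (-(2 * T)) (2 * T), w t ^ p ≤
        C2 * (C3 * (41 ^ (θ + ε / 2) * T ^ (θ + ε / 2))) := by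
      refine hw.trans ((h2 N hN20 v lam hD).trans (mul_le_mul_of_nonneg_left ?_ hC2.le))
      refine (hsum.trans (mul_le_mul_of_nonneg_right (le_max_left _ _)
        (by positivity))).trans (mul_le_mul_of_nonneg_left ?_ hC30)
      rw [← Real.mul_rpow (by norm_num) hTp.le]
      exact Real.rpow_le_rpow (by positivity) hN2 (by linarith)
    have hb : T ≤ T ^ (θ + ε / 2) := by
      calc T = T ^ (1 : ℝ) := (Real.rpow_one T).symm
        _ ≤ T ^ (θ + ε / 2) := Real.rpow_le_rpow_of_exponent_le hT (by linarith)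
    have hlog : 0 ≤ Real.log T ^ (2 * p) := Real.rpow_nonneg (Real.log_nonneg hT) _
    have hTθ : 0 ≤ T ^ (θ + ε / 2) := by positivity
    calc ∫ t in (0 : ℝ)..T, Z t ^ (2 * p)
        ≤ C1 * Real.log T ^ (2 * p) * (T + ∫ t in Icc (-(2 * T)) (2 * T), w t ^ p) := h1 T hTT
      _ ≤ C1 * Real.log T ^ (2 * p) * (T ^ (θ + ε / 2) +
            C2 * (C3 * (41 ^ (θ + ε / 2) * T ^ (θ + ε / 2)))) := by
          refine mul_le_mul_of_nonneg_left (add_le_add hb ha) (by positivity)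
      _ ≤ C1 * (C4 * T ^ (ε / 2)) * (T ^ (θ + ε / 2) +
            C2 * (C3 * (41 ^ (θ + ε / 2) * T ^ (θ + ε / 2)))) := by
          refine mul_le_mul_of_nonneg_right ?_ (by positivity)
          exact mul_le_mul_of_nonneg_left (h4 T hT) (by linarith)
      _ = B * (T ^ (ε / 2) * T ^ (θ + ε / 2)) := by rw [hB]; ring
      _ = B * T ^ (θ + ε) := by
          rw [← Real.rpow_add hTp]
          congr 2
          ring
      _ ≤ (I0 + B) * T ^ (θ + ε) := mul_le_mul_of_nonneg_right (by linarith) (by positivity)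

end Pool.Agent.NBK
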