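import Pool.Agent.NBK.TargetsR
import Pool.Agent.NBM.P_LBT

/-!
# NBK-LTR: the second Berezin-Lieb inequality with real exponents
-/

set_option autoImplicit false

open MeasureTheory Set
open scoped InnerProductSpace

namespace Pool.Agent.NBK

open Pool.Agent.NBL Pool.Agent.NBM

namespace LTR_

/-- finite Jensen inequality for the spectral measure, real exponents -/
theorem jen (N : ℕ) (p : ℝ) (v : OrthonormalBasis (Fin N) ℂ (EuclideanSpace ℂ (Fin N)))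
    (lam : Fin N → ℝ) (e : EuclideanSpace ℂ (Fin N)) (hp : 1 ≤ p) (hl : ∀ i, 0 ≤ lam i) :
    (∑ i, lam i * ‖⟪v i, e⟫_ℂ‖ ^ 2) ^ p ≤
      (‖e‖ ^ 2) ^ (p - 1) * ∑ i, lam i ^ p * ‖⟪v i, e⟫_ℂ‖ ^ 2 := by
  have hS : ∑ i, ‖⟪v i, e⟫_ℂ‖ ^ 2 = ‖e‖ ^ 2 := v.sum_sq_norm_inner_right e
  set c : Fin N → ℝ := fun i => ‖⟪v i, e⟫_ℂ‖ ^ 2 with hc
  have hc0 : ∀ i, 0 ≤ c i := fun i => by positivity
  rcases eq_or_lt_of_le (show 0 ≤ ‖e‖ ^ 2 by positivity) with h0 | h0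
  · have hz : ∀ i, c i = 0 := by
      intro i
      have h1 : ∑ i, c i = 0 := by rw [h0]; exact hS
      exact (Finset.sum_eq_zero_iff_of_nonneg (fun i _ => hc0 i)).1 h1 i (Finset.mem_univ i)
    have h1 : ∑ i, lam i * ‖⟪v i, e⟫_ℂ‖ ^ 2 = 0 :=
      Finset.sum_eq_zero fun i _ => by
        have := hz i
        simp only [hc] at this
        rw [this, mul_zero]
    rw [h1, Real.zero_rpow (by linarith)]
    have : ∀ i, 0 ≤ lam i ^ p * ‖⟪v i, e⟫_ℂ‖ ^ 2 := fun i =>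
      mul_nonneg (Real.rpow_nonneg (hl i) p) (by positivity)
    exact mul_nonneg (by positivity) (Finset.sum_nonneg fun i _ => this i)
  · have hj := Real.rpow_arith_mean_le_arith_mean_rpow Finset.univ (fun i => c i / ‖e‖ ^ 2) lam
      (fun i _ => div_nonneg (hc0 i) h0.le)
      (by rw [← Finset.sum_div]; rw [show ∑ i, c i = ‖e‖ ^ 2 from hS]; exact div_self h0.ne')
      (fun i _ => hl i) hp
    have e1 : ∑ i, (c i / ‖e‖ ^ 2) * lam i = (∑ i, lam i * ‖⟪v i, e⟫_ℂ‖ ^ 2) / ‖e‖ ^ 2 := by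
      rw [Finset.sum_div]
      exact Finset.sum_congr rfl fun i _ => by simp only [hc]; ring
    have e2 : ∑ i, (c i / ‖e‖ ^ 2) * lam i ^ p =
        (∑ i, lam i ^ p * ‖⟪v i, e⟫_ℂ‖ ^ 2) / ‖e‖ ^ 2 := by
      rw [Finset.sum_div]
      exact Finset.sum_congr rfl fun i _ => by simp only [hc]; ring
    have hA : 0 ≤ ∑ i, lam i * ‖⟪v i, e⟫_ℂ‖ ^ 2 :=
      Finset.sum_nonneg fun i _ => mul_nonneg (hl i) (sq_nonneg _)
    rw [e1, e2, Real.div_rpow hA h0.le, div_le_div_iff₀ (Real.rpow_pos_of_pos h0 p) h0] at hj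
    have e3 : (‖e‖ ^ 2) ^ p = (‖e‖ ^ 2) ^ (p - 1) * ‖e‖ ^ 2 := by
      nth_rewrite 3 [← Real.rpow_one (‖e‖ ^ 2)]
      rw [← Real.rpow_add h0, sub_add_cancel]
    have h3 : (∑ i, lam i * ‖⟪v i, e⟫_ℂ‖ ^ 2) ^ p * ‖e‖ ^ 2 ≤
        ((‖e‖ ^ 2) ^ (p - 1) * ∑ i, lam i ^ p * ‖⟪v i, e⟫_ℂ‖ ^ 2) * ‖e‖ ^ 2 := by
      refine hj.trans (le_of_eq ?_)
      rw [e3]
      ring
    exact le_of_mul_le_mul_right h3 h0

end LTR_

open LTR_ LBT_ in
theorem p_LTR (hPLN : NBM.T_PLN) (hLBM : NBM.T_LBM) (hLBK : NBM.T_LBK) : T_LTR := by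
  intro p hp
  have hp0 : 0 ≤ p := by linarith
  refine ⟨(32 * Real.pi) ^ p * 2 ^ (p - 1) * (Kmv + 1), ?_, fun N hN v lam hD => ?_⟩
  · have := Kmv_pos
    positivity
  obtain ⟨h0, hQ⟩ := hD
  have hN1 : 1 ≤ N := by omega
  obtain ⟨hM1, hM2⟩ := hLBM N hN1
  have hNr : (20 : ℝ) ≤ N := by exact_mod_cast hN
  -- the functions `‖⟪v i, et N t⟫‖ ^ 2`
  have hc : ∀ i, Continuous fun t : ℝ => ‖⟪v i, et N t⟫_ℂ‖ ^ 2 := fun i =>
    ((continuous_const.inner (et_cont N)).norm).pow 2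
  have hint : ∀ i, ∫ t in Icc (-(N : ℝ) / 20) (N / 20), ‖⟪v i, et N t⟫_ℂ‖ ^ 2 ≤ Kmv := by
    intro i
    have h1 : ENNReal.ofReal (∫ t in Icc (-(N : ℝ) / 20) (N / 20), ‖⟪v i, et N t⟫_ℂ‖ ^ 2) ≤
        ENNReal.ofReal Kmv := by
      rw [ofReal_integral_eq_lintegral_ofReal (hc i).continuousOn.integrableOn_Icc
        (Filter.Eventually.of_forall fun _ => sq_nonneg _)]
      have h2 := hM1 (v i)
      rw [v.orthonormal.1 i, one_pow, mul_one] at h2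
      refine le_trans ?_ h2
      have h3 : ∀ t : ℝ, ENNReal.ofReal (‖⟪v i, et N t⟫_ℂ‖ ^ 2) = ‖⟪v i, et N t⟫_ℂ‖ₑ ^ 2 := by
        intro t
        rw [ENNReal.ofReal_pow (norm_nonneg _), ofReal_norm]
      simp only [h3]
      refine lintegral_mono_set ?_
      refine Icc_subset_Icc ?_ ?_
      · linarith
      · linarith
    exact (ENNReal.ofReal_le_ofReal_iff Kmv_pos.le).1 h1
  have hpt : ∀ t ∈ Icc (-(N : ℝ) / 20) (N / 20), w t ^ p ≤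
      (32 * Real.pi) ^ p * 2 ^ (p - 1) * ∑ i, lam i ^ p * ‖⟪v i, et N t⟫_ℂ‖ ^ 2 := by
    intro t ht
    have ht' : |t| ≤ (N : ℝ) / 20 := abs_le.2 ⟨by linarith [ht.1], ht.2⟩
    have h1 := lower hPLN hLBK hN ht'
    have h2 := jen (2 * N) p v lam (et N t) hp h0
    have h3 : Qf (2 * N) (fun i => et N t i) = ∑ i, lam i * ‖⟪v i, et N t⟫_ℂ‖ ^ 2 :=
      hQ (et N t)
    have h4 : 0 ≤ ∑ i, lam i ^ p * ‖⟪v i, et N t⟫_ℂ‖ ^ 2 :=
      Finset.sum_nonneg fun i _ => mul_nonneg (Real.rpow_nonneg (h0 i) p) (sq_nonneg _)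
    have h6 : 0 ≤ ∑ i, lam i * ‖⟪v i, et N t⟫_ℂ‖ ^ 2 :=
      Finset.sum_nonneg fun i _ => mul_nonneg (h0 i) (sq_nonneg _)
    calc w t ^ p ≤ (32 * Real.pi * Qf (2 * N) (fun i => et N t i)) ^ p :=
          Real.rpow_le_rpow (w_nonneg t) h1 hp0
      _ = (32 * Real.pi) ^ p * (∑ i, lam i * ‖⟪v i, et N t⟫_ℂ‖ ^ 2) ^ p := by
          rw [h3, Real.mul_rpow (by positivity) h6]
      _ ≤ (32 * Real.pi) ^ p * ((‖et N t‖ ^ 2) ^ (p - 1) *
            ∑ i, lam i ^ p * ‖⟪v i, et N t⟫_ℂ‖ ^ 2) := by gcongr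
      _ ≤ (32 * Real.pi) ^ p * (2 ^ (p - 1) *
            ∑ i, lam i ^ p * ‖⟪v i, et N t⟫_ℂ‖ ^ 2) := by
          have h5 : (‖et N t‖ ^ 2) ^ (p - 1) ≤ 2 ^ (p - 1) :=
            Real.rpow_le_rpow (sq_nonneg _) (hM2 t) (by linarith)
          gcongr
      _ = _ := by ring
  have hg : ∀ i, IntegrableOn (fun t : ℝ => lam i ^ p * ‖⟪v i, et N t⟫_ℂ‖ ^ 2)
      (Icc (-(N : ℝ) / 20) (N / 20)) := fun i =>
    (continuous_const.mul (hc i)).continuousOn.integrableOn_Icc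
  calc ∫ t in Icc (-(N : ℝ) / 20) (N / 20), w t ^ p
      ≤ ∫ t in Icc (-(N : ℝ) / 20) (N / 20), (32 * Real.pi) ^ p * 2 ^ (p - 1) *
          ∑ i, lam i ^ p * ‖⟪v i, et N t⟫_ℂ‖ ^ 2 := by
        refine integral_mono_of_nonneg ?_ ?_ ?_
        · exact Filter.Eventually.of_forall fun t => Real.rpow_nonneg (w_nonneg t) p
        · exact (integrable_finsetSum _ fun i _ => hg i).const_mul _
        · exact ae_restrict_of_forall_mem measurableSet_Icc hpt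
    _ = (32 * Real.pi) ^ p * 2 ^ (p - 1) *
          ∑ i, lam i ^ p * ∫ t in Icc (-(N : ℝ) / 20) (N / 20), ‖⟪v i, et N t⟫_ℂ‖ ^ 2 := by
        rw [integral_const_mul, integral_finsetSum _ fun i _ => hg i]
        simp only [integral_const_mul]
    _ ≤ (32 * Real.pi) ^ p * 2 ^ (p - 1) * ∑ i, lam i ^ p * (Kmv + 1) := by
        gcongr with i _
        · exact Real.rpow_nonneg (h0 i) p
        · linarith [hint i]
    _ = (32 * Real.pi) ^ p * 2 ^ (p - 1) * (Kmv + 1) * ∑ i, lam i ^ p := by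
        rw [← Finset.sum_mul]
        ring

end Pool.Agent.NBK
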