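import Pool.Agent.NBK.TargetsR
import Pool.Agent.NBM.P_WSM

set_option autoImplicit false

/-!
# NBK: moments with real exponents and the local mean square (WSR)
-/

open MeasureTheory Set
open scoped InnerProductSpace

namespace Pool.Agent.NBK

open Pool.Agent.NBL Pool.Agent.NBM
open Pool.Agent.NBM.WSM_ (Z_cont Z_nonneg w_cont w_nonneg swap mono_int icc_eq window)

namespace WSR_

/-- Jensen on an interval -/
theorem jens {f : ℝ → ℝ} (hf : Continuous f) (h0 : ∀ x, 0 ≤ f x) {a b : ℝ} (hab : a < b)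
    {p : ℝ} (hp : 1 ≤ p) :
    (∫ x in a..b, f x) ^ p ≤ (b - a) ^ p / (b - a) * ∫ x in a..b, f x ^ p := by
  have hba : 0 < b - a := by linarith
  have hfp : Continuous fun x => f x ^ p := hf.rpow_const (fun _ => Or.inr (by linarith))
  have hi : IntegrableOn f (Ioc a b) := (hf.integrableOn_Icc (a := a) (b := b)).mono_set
    Ioc_subset_Icc_self
  have hi2 : IntegrableOn (fun x => f x ^ p) (Ioc a b) :=
    (hfp.integrableOn_Icc (a := a) (b := b)).mono_set Ioc_subset_Icc_self
  have h := (convexOn_rpow hp).map_set_average_le (μ := volume) (t := Ioc a b)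
    (f := f) (Real.continuous_rpow_const (by linarith)).continuousOn isClosed_Ici
    (by rw [Real.volume_Ioc]; simp [hab]) (by simp) (ae_of_all _ h0) hi hi2
  rw [setAverage_eq, setAverage_eq, Real.volume_real_Ioc_of_le hab.le, smul_eq_mul, smul_eq_mul,
    ← intervalIntegral.integral_of_le hab.le, ← intervalIntegral.integral_of_le hab.le] at h
  have hI : 0 ≤ ∫ x in a..b, f x := intervalIntegral.integral_nonneg hab.le fun x _ => h0 x
  rw [Real.mul_rpow (inv_nonneg.2 hba.le) hI, Real.inv_rpow hba.le] at h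
  have hbp : 0 < (b - a) ^ p := Real.rpow_pos_of_pos hba p
  have h2 := mul_le_mul_of_nonneg_left h hbp.le
  rw [← mul_assoc, mul_inv_cancel₀ hbp.ne', one_mul, ← mul_assoc, ← div_eq_mul_inv] at h2
  exact h2

theorem add_rpow {x p : ℝ} (hx : 0 ≤ x) (hp : 0 ≤ p) : (1 + x) ^ p ≤ 2 ^ p * (1 + x ^ p) := by
  have hxp : 0 ≤ x ^ p := Real.rpow_nonneg hx p
  have h2p : 0 ≤ (2 : ℝ) ^ p := by positivity
  have h3 : 0 ≤ (2 : ℝ) ^ p * x ^ p := mul_nonneg h2p hxp
  rcases le_total x 1 with h | h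
  · calc (1 + x) ^ p ≤ 2 ^ p := Real.rpow_le_rpow (by linarith) (by linarith) hp
      _ ≤ 2 ^ p * (1 + x ^ p) := by rw [mul_add, mul_one]; linarith
  · calc (1 + x) ^ p ≤ (2 * x) ^ p := Real.rpow_le_rpow (by linarith) (by linarith) hp
      _ = 2 ^ p * x ^ p := Real.mul_rpow (by norm_num) hx
      _ ≤ 2 ^ p * (1 + x ^ p) := by rw [mul_add, mul_one]; linarith

/-- `w ^ p` -/
noncomputable def wp (p u : ℝ) : ℝ := w u ^ p

/-- `Z ^ (2 p)` -/
noncomputable def zp (p u : ℝ) : ℝ := Z u ^ (2 * p)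

theorem wp_cont {p : ℝ} (hp : 1 ≤ p) : Continuous (wp p) :=
  w_cont.rpow_const (fun _ => Or.inr (by linarith))

theorem zp_cont {p : ℝ} (hp : 1 ≤ p) : Continuous (zp p) :=
  Z_cont.rpow_const (fun _ => Or.inr (by linarith))

theorem wp_nonneg (p u : ℝ) : 0 ≤ wp p u := Real.rpow_nonneg (w_nonneg u) p

theorem zp_nonneg (p u : ℝ) : 0 ≤ zp p u := Real.rpow_nonneg (Z_nonneg u) _

/-- the pointwise bound -/
theorem point {C₀ T₁ : ℝ} (hC : 1 ≤ C₀) (hT₁ : 20 ≤ T₁)
    (h : ∀ T : ℝ, T₁ ≤ T → Z T ^ 2 ≤ C₀ * Real.log T *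
      (1 + ∫ v in Icc (T - 2 * Real.log T) (T + 2 * Real.log T), Z v ^ 2))
    {t T : ℝ} (ht : T₁ ≤ t) (htT : t ≤ T) {p : ℝ} (hp : 1 ≤ p) :
    zp p t ≤ (C₀ * Real.log T) ^ p * 2 ^ p *
      (1 + 5 ^ p * ((2 * (2 * Real.log T + 1)) ^ p / (2 * (2 * Real.log T + 1)) *
        ∫ v in (-(2 * Real.log T + 1))..(2 * Real.log T + 1), wp p (t + v))) := by
  have hz := Z_cont
  have hw := w_cont
  have hp0 : 0 ≤ p := by linarith
  have hlt : 0 ≤ Real.log t := Real.log_nonneg (by linarith)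
  have hll : Real.log t ≤ Real.log T := Real.log_le_log (by linarith) htT
  have hlT : 0 ≤ Real.log T := hlt.trans hll
  have h1 := h t ht
  rw [icc_eq (by linarith)] at h1
  have h2 : ∫ u in (t - 2 * Real.log t)..(t + 2 * Real.log t), Z u ^ 2 ≤
      ∫ u in (t - 2 * Real.log T)..(t + 2 * Real.log T), Z u ^ 2 :=
    mono_int (hz.pow 2) (fun _ => sq_nonneg _) (by linarith) (by linarith) (by linarith)
  have h3 := window (t := t) (l := 2 * Real.log T) (by linarith)
  set V := 2 * Real.log T + 1 with hV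
  have hV0 : 0 < V := by linarith
  set A := ∫ v in (-V)..V, w (t + v) with hA
  have hA0 : 0 ≤ A := by
    rw [hA]
    exact intervalIntegral.integral_nonneg (by linarith) fun v _ => w_nonneg _
  have h4 : Z t ^ 2 ≤ C₀ * Real.log T * (1 + 5 * A) := by
    refine h1.trans ?_
    have h5 : 0 ≤ ∫ u in (t - 2 * Real.log t)..(t + 2 * Real.log t), Z u ^ 2 :=
      intervalIntegral.integral_nonneg (by linarith) fun v _ => sq_nonneg _
    apply mul_le_mul _ _ (by linarith) (by positivity)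
    · exact mul_le_mul_of_nonneg_left hll (by linarith)
    · linarith
  have h5 : zp p t ≤ (C₀ * Real.log T * (1 + 5 * A)) ^ p := by
    unfold zp
    rw [Real.rpow_mul (Z_nonneg t), Real.rpow_two]
    exact Real.rpow_le_rpow (sq_nonneg _) h4 hp0
  have h6 : (1 + 5 * A) ^ p ≤ 2 ^ p * (1 + (5 * A) ^ p) := add_rpow (by positivity) hp0
  have h7 : A ^ p ≤ (2 * V) ^ p / (2 * V) * ∫ v in (-V)..V, wp p (t + v) := by
    have h8 := jens (f := fun v => w (t + v)) (by fun_prop) (fun v => w_nonneg _)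
      (show -V < V by linarith) hp
    have e : V - -V = 2 * V := by ring
    rw [e] at h8
    exact h8
  have hCl : 0 ≤ C₀ * Real.log T := by positivity
  have hK0 : 0 ≤ (C₀ * Real.log T) ^ p := Real.rpow_nonneg hCl p
  have h2p : 0 ≤ (2 : ℝ) ^ p := by positivity
  have h5p : 0 ≤ (5 : ℝ) ^ p := by positivity
  calc zp p t ≤ (C₀ * Real.log T * (1 + 5 * A)) ^ p := h5
    _ = (C₀ * Real.log T) ^ p * (1 + 5 * A) ^ p := Real.mul_rpow hCl (by positivity)
    _ ≤ (C₀ * Real.log T) ^ p * (2 ^ p * (1 + (5 * A) ^ p)) :=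
        mul_le_mul_of_nonneg_left h6 hK0
    _ = (C₀ * Real.log T) ^ p * 2 ^ p * (1 + 5 ^ p * A ^ p) := by
        rw [Real.mul_rpow (by norm_num) hA0]; ring
    _ ≤ _ := by
        apply mul_le_mul_of_nonneg_left _ (mul_nonneg hK0 h2p)
        have := mul_le_mul_of_nonneg_left h7 h5p
        linarith

end WSR_

open WSR_ in
/-- **WSR** -/
theorem p_WSR (hPMX : Pool.Agent.NBM.T_PMX) : T_WSR := by
  obtain ⟨C₀, T₁, hC, hT₁, hP⟩ := hPMX
  intro p hp
  have hp0 : 0 ≤ p := by linarith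
  have hz := zp_cont hp
  have hw := wp_cont hp
  set A₀ := ∫ t in (0 : ℝ)..T₁, zp p t with hA₀
  have hA₀0 : 0 ≤ A₀ := by
    rw [hA₀]
    exact intervalIntegral.integral_nonneg (by linarith) fun v _ => zp_nonneg p v
  have hC1 : (1 : ℝ) ≤ C₀ ^ p := Real.one_le_rpow hC hp0
  have h60 : (1 : ℝ) ≤ 60 ^ p := Real.one_le_rpow (by norm_num) hp0
  refine ⟨A₀ + C₀ ^ p * 60 ^ p, T₁, ?_, hT₁, ?_⟩
  · nlinarith
  intro T hT
  have hT20 : 20 ≤ T := by linarith
  obtain ⟨l, hl⟩ : ∃ l : ℝ, l = Real.log T := ⟨_, rfl⟩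
  have hl1 : 1 ≤ l := by
    rw [hl, Real.le_log_iff_exp_le (by linarith)]
    have := Real.exp_one_lt_d9
    linarith
  have hlT : 2 * l + 1 ≤ T := by
    have h1 : Real.log (T / 8) ≤ T / 8 - 1 := Real.log_le_sub_one_of_pos (by linarith)
    have h2 : Real.log (T / 8) = l - 3 * Real.log 2 := by
      rw [Real.log_div (by linarith) (by norm_num), hl,
        show (8 : ℝ) = 2 ^ 3 by norm_num, Real.log_pow]
      norm_num
    have h3 := Real.log_two_lt_d9
    linarith
  set V := 2 * l + 1 with hV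
  have hV0 : 0 < V := by linarith
  set W := ∫ t in Icc (-(2 * T)) (2 * T), wp p t with hW
  have hWi : W = ∫ t in (-(2 * T))..(2 * T), wp p t := by
    rw [hW, icc_eq (by linarith)]
  have hW0 : 0 ≤ W := by
    rw [hW]
    exact integral_nonneg fun t => wp_nonneg p t
  have hCl : 0 ≤ C₀ * l := by positivity
  have hK0 : 0 ≤ (C₀ * l) ^ p := Real.rpow_nonneg hCl p
  have h2p : 0 ≤ (2 : ℝ) ^ p := by positivity
  have h5p : 0 ≤ (5 : ℝ) ^ p := by positivity
  have hVp : 0 ≤ (2 * V) ^ p / (2 * V) := by positivity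
  -- the main part
  have hmain : ∫ t in T₁..T, zp p t ≤ (C₀ * l) ^ p * 2 ^ p *
      (T + 5 ^ p * ((2 * V) ^ p / (2 * V) * (2 * V * W))) := by
    have hinner : Continuous fun t : ℝ => ∫ v in (-V)..V, wp p (t + v) := by
      apply intervalIntegral.continuous_parametric_intervalIntegral_of_continuous'
      simp only [Function.uncurry_def]
      fun_prop
    have h1 : ∫ t in T₁..T, zp p t ≤ ∫ t in T₁..T, (C₀ * l) ^ p * 2 ^ p *
        (1 + 5 ^ p * ((2 * V) ^ p / (2 * V) * ∫ v in (-V)..V, wp p (t + v))) := by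
      apply intervalIntegral.integral_mono_on hT
      · exact hz.intervalIntegrable _ _
      · apply Continuous.intervalIntegrable
        exact continuous_const.mul (continuous_const.add (continuous_const.mul
          (continuous_const.mul hinner)))
      · intro t ht
        rw [hV, hl]
        exact point hC hT₁ hP ht.1 ht.2 hp
    refine h1.trans ?_
    rw [intervalIntegral.integral_const_mul]
    apply mul_le_mul_of_nonneg_left _ (mul_nonneg hK0 h2p)
    rw [intervalIntegral.integral_add intervalIntegrable_const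
      (by
        apply Continuous.intervalIntegrable
        exact continuous_const.mul (continuous_const.mul hinner))]
    rw [intervalIntegral.integral_const_mul, intervalIntegral.integral_const_mul]
    have h2 : ∫ _t in T₁..T, (1 : ℝ) ≤ T := by
      rw [intervalIntegral.integral_const, smul_eq_mul]
      linarith
    have h3 : ∫ t in T₁..T, ∫ v in (-V)..V, wp p (t + v) ≤ 2 * V * W := by
      rw [swap (F := fun t v => wp p (t + v))
        (by simp only [Function.uncurry_def]; fun_prop)]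
      have h4 : ∀ v ∈ Icc (-V) V, ∫ t in T₁..T, wp p (t + v) ≤ W := by
        intro v hv
        rw [intervalIntegral.integral_comp_add_right (fun u => wp p u) v, hWi]
        exact mono_int hw (fun u => wp_nonneg p u)
          (by linarith [hv.1]) (by linarith) (by linarith [hv.2])
      calc ∫ v in (-V)..V, ∫ t in T₁..T, wp p (t + v) ≤ ∫ _v in (-V)..V, W := by
            apply intervalIntegral.integral_mono_on (by linarith) _ intervalIntegrable_const h4
            apply Continuous.intervalIntegrable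
            apply intervalIntegral.continuous_parametric_intervalIntegral_of_continuous'
            simp only [Function.uncurry_def]
            fun_prop
        _ = 2 * V * W := by
            rw [intervalIntegral.integral_const, smul_eq_mul]; ring
    have h5 : (2 * V) ^ p / (2 * V) * ∫ t in T₁..T, ∫ v in (-V)..V, wp p (t + v) ≤
        (2 * V) ^ p / (2 * V) * (2 * V * W) := mul_le_mul_of_nonneg_left h3 hVp
    have h6 := mul_le_mul_of_nonneg_left h5 h5p
    linarith
  -- splitting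
  have hsplit : ∫ t in (0 : ℝ)..T, zp p t = A₀ + ∫ t in T₁..T, zp p t := by
    rw [hA₀, intervalIntegral.integral_add_adjacent_intervals]
    · exact hz.intervalIntegrable _ _
    · exact hz.intervalIntegrable _ _
  change ∫ t in (0 : ℝ)..T, zp p t ≤ (A₀ + C₀ ^ p * 60 ^ p) * Real.log T ^ (2 * p) * (T + W)
  rw [hsplit, ← hl]
  have hl0 : 0 ≤ l := by linarith
  have hlp1 : 1 ≤ l ^ p := Real.one_le_rpow hl1 hp0
  have hll : l ^ (2 * p) = l ^ p * l ^ p := by
    rw [two_mul, Real.rpow_add (by linarith)]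
  have hlk : 1 ≤ l ^ (2 * p) := by
    rw [hll]; nlinarith
  have hA1 : A₀ ≤ A₀ * (l ^ (2 * p) * (T + W)) := by
    have : 1 ≤ l ^ (2 * p) * (T + W) := by nlinarith
    nlinarith
  have hVl : 2 * V ≤ 6 * l := by linarith
  have hVk : (2 * V) ^ p ≤ 6 ^ p * l ^ p := by
    rw [← Real.mul_rpow (by norm_num) hl0]
    exact Real.rpow_le_rpow (by positivity) hVl hp0
  have h30 : (30 : ℝ) ^ p = 5 ^ p * 6 ^ p := by
    rw [← Real.mul_rpow (by norm_num) (by norm_num)]; norm_num
  have h60' : (60 : ℝ) ^ p = 2 ^ p * 30 ^ p := by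
    rw [← Real.mul_rpow (by norm_num) (by norm_num)]; norm_num
  have hfin : (C₀ * l) ^ p * 2 ^ p * (T + 5 ^ p * ((2 * V) ^ p / (2 * V) * (2 * V * W))) ≤
      C₀ ^ p * 60 ^ p * (l ^ (2 * p) * (T + W)) := by
    have e1 : (2 * V) ^ p / (2 * V) * (2 * V * W) = (2 * V) ^ p * W := by
      field_simp
    rw [e1]
    have h1 : T + 5 ^ p * ((2 * V) ^ p * W) ≤ 30 ^ p * l ^ p * (T + W) := by
      have h2 : (5 : ℝ) ^ p * ((2 * V) ^ p * W) ≤ 5 ^ p * (6 ^ p * l ^ p * W) :=
        mul_le_mul_of_nonneg_left (mul_le_mul_of_nonneg_right hVk hW0) h5p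
      have h3 : (5 : ℝ) ^ p * (6 ^ p * l ^ p * W) = 30 ^ p * l ^ p * W := by
        rw [h30]; ring
      have h4 : T ≤ 30 ^ p * l ^ p * T := by
        have h5 : (1 : ℝ) ≤ 30 ^ p := Real.one_le_rpow (by norm_num) hp0
        have h6 : 1 ≤ 30 ^ p * l ^ p := by nlinarith
        nlinarith
      rw [h3] at h2
      linarith
    calc (C₀ * l) ^ p * 2 ^ p * (T + 5 ^ p * ((2 * V) ^ p * W))
        ≤ (C₀ * l) ^ p * 2 ^ p * (30 ^ p * l ^ p * (T + W)) :=
          mul_le_mul_of_nonneg_left h1 (mul_nonneg hK0 h2p)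
      _ = C₀ ^ p * 60 ^ p * (l ^ (2 * p) * (T + W)) := by
          rw [hll, h60', Real.mul_rpow (by linarith) hl0]; ring
  have e9 : (A₀ + C₀ ^ p * 60 ^ p) * l ^ (2 * p) * (T + W) =
      A₀ * (l ^ (2 * p) * (T + W)) + C₀ ^ p * 60 ^ p * (l ^ (2 * p) * (T + W)) := by ring
  rw [e9]
  linarith

end Pool.Agent.NBK
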