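import Pool.Agent.NBK.FinR
import Pool.Agent.NBK.Gro
import Pool.Agent.NBK.P_WSR
import Pool.Agent.NBK.P_LTR
import Pool.Agent.NBK.P_LFR
import Pool.Agent.NBK.P_INR

/-!
# Moments and codimensions: the final statement
-/

set_option autoImplicit false

open MeasureTheory Set Filter Topology

namespace Pool.Agent.NBK

open Pool.Agent

theorem lfr : T_LFR := p_LFR (p_WSR (NBM.p_PMX NBM.p_PRP)) (p_LTR NBM.p_PLN NBM.p_LBM NBM.p_LBK)

theorem inr : T_INR := p_INR NBM.p_KRB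

/-- **Moments and codimensions** -/
theorem real_final : ∀ k h : ℝ, 0 < k → 1 ≤ h → (
      (∀ ε : ℝ, 0 < ε → ∃ C : ℝ, ∀ T : ℝ, 1 ≤ T →
        ∫ t in (0 : ℝ)..T, ‖riemannZeta (1 / 2 + t * Complex.I)‖ ^ (2 * k) ≤ C * T ^ (h + ε)) ↔
      (∀ a q : ℝ, 0 < a → h - k * a < q →
        ∃ C : ℝ, ∀ N : ℕ, 1 ≤ N → (codim a N : ℝ) ≤ C * (N : ℝ) ^ q)) :=
  fun k h hk hh => momentsR_final lfr inr k hk h hh

end Pool.Agent.NBK
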