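import Pool.Agent.NBK.KdefR

/-!
# Moments and codimensions: all positive exponents
-/

set_option autoImplicit false

open MeasureTheory Complex Set Filter Topology

namespace Pool.Agent.NBK

open Pool.Agent.NBL Pool.Agent.NBM Pool.Agent.NBM.LHK_

/-- the moments of order at most four -/
theorem momR_small {p h : ℝ} (hp : 0 < p) (hp2 : p ≤ 2) (hh : 1 ≤ h) : MomR p h := by
  intro ε hε
  obtain ⟨C, hC⟩ := NBE.p_FOU ε hε
  refine ⟨1 + |C|, fun T hT => ?_⟩
  have hT0 : 0 < T := by linarith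
  have h1 : ∀ t ∈ Icc (0 : ℝ) T, Z t ^ (2 * p) ≤ 1 + Z t ^ (2 * 2) := by
    intro t _
    have hz := z_nonneg t
    have h4 : Z t ^ (2 * 2) = Z t ^ ((2 * 2 : ℕ) : ℝ) := (Real.rpow_natCast _ _).symm
    rcases le_total (Z t) 1 with h | h
    · have h2 : Z t ^ (2 * p) ≤ 1 := Real.rpow_le_one hz h (by linarith)
      have h3 : 0 ≤ Z t ^ (2 * 2) := by positivity
      linarith
    · have h2 : Z t ^ (2 * p) ≤ Z t ^ ((2 * 2 : ℕ) : ℝ) :=
        Real.rpow_le_rpow_of_exponent_le h (by push_cast; linarith)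
      rw [← h4] at h2
      linarith
  have h2 : ∫ t in (0 : ℝ)..T, Z t ^ (2 * p) ≤ ∫ t in (0 : ℝ)..T, (1 + Z t ^ (2 * 2)) :=
    intervalIntegral.integral_mono_on hT0.le (zp_int (by linarith) _ _)
      ((continuous_const.add (z_cont.pow _)).intervalIntegrable _ _) h1
  rw [intervalIntegral.integral_add (continuous_const.intervalIntegrable _ _) (z_int _ _ _),
    intervalIntegral.integral_const, smul_eq_mul, sub_zero, mul_one] at h2
  have h3 : T ≤ T ^ (h + ε) := by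
    calc T = T ^ (1 : ℝ) := (Real.rpow_one T).symm
      _ ≤ T ^ (h + ε) := Real.rpow_le_rpow_of_exponent_le hT (by linarith)
  have h4 : C * T ^ (1 + ε) ≤ |C| * T ^ (h + ε) :=
    mul_le_mul (le_abs_self C) (Real.rpow_le_rpow_of_exponent_le hT (by linarith))
      (Real.rpow_nonneg hT0.le _) (abs_nonneg C)
  have h5 := hC T hT
  linarith

/-- large levels -/
lemma sub_large {e : ℝ} (he : 1 / 2 < e) (q : ℝ) : ∀ᶠ N : ℕ in atTop, Sub e N ((N : ℝ) ^ q) := by
  obtain ⟨N₀, hN₀⟩ := all_of_mu (by norm_num) (by norm_num) mu_quarter e (by linarith)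
  refine eventually_atTop.2 ⟨N₀, fun N hN => sub_of_all ?_ (hN₀ N hN)⟩
  exact Real.rpow_nonneg (Nat.cast_nonneg N) q

/-- the codimensions above the trivial range -/
theorem cod_trivial {p h : ℝ} (hh : 1 ≤ h) (hph : p < h) : CodR p h := by
  intro e q he hq
  rcases lt_or_ge (1 / 2) e with h1 | h1
  · exact sub_large h1 q
  · have h2 : Cod 2 1 := cod_of_mom (by norm_num) le_rfl NBE.p_FOU
    refine h2 e q he ?_
    push_cast
    nlinarith

theorem cod_of_momR (hINR : T_INR) {p h : ℝ} (hp : 0 < p) (hh : 1 ≤ h) (H : MomR p h) :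
    CodR p h := by
  rcases lt_or_ge p h with h1 | h1
  · exact cod_trivial hh h1
  · have hp1 : 1 ≤ p := hh.trans h1
    intro e q he hq
    rcases lt_or_ge 0 q with h0 | h0
    · exact cod_of_cnt (by linarith) (fun ε hε => cnt_of_mom (NBM.p_UBW NBM.p_PLN) NBM.p_PLN hINR
        hp1 hh h1 H hε) e q h0 hq
    · have hlt : h / p < e := by
        rw [div_lt_iff₀ hp]
        linarith
      rcases lt_or_ge (1 / 2) e with h2 | h2
      · exact sub_large h2 q
      · have h3 := momR_mu (NBM.p_PMX NBM.p_PRP) hp1 (by linarith : 0 ≤ h) H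
        have e1 : h / (2 * p) = h / p / 2 := by field_simp
        rw [e1] at h3
        have h4 : 0 ≤ h / p := by positivity
        obtain ⟨N₀, hN₀⟩ := all_of_mu (by linarith) (by linarith) h3 e (by linarith)
        refine eventually_atTop.2 ⟨N₀, fun N hN => sub_of_all ?_ (hN₀ N hN)⟩
        exact Real.rpow_nonneg (Nat.cast_nonneg N) q

theorem momR_of_cod (hLFR : T_LFR) {p h : ℝ} (hp : 0 < p) (hh : 1 ≤ h) (H : CodR p h) :
    MomR p h := by
  rcases lt_or_ge p 1 with h1 | h1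
  · exact momR_small hp (by linarith) hh
  · refine hLFR p h h1 hh fun ε hε => ?_
    obtain ⟨C, hC⟩ := sum_of_cod hp hh H ε hε
    refine ⟨|C| * 2 ^ (h + ε), fun N hN => ?_⟩
    obtain ⟨v, lam, hD, hs⟩ := hC (2 * N) (by omega)
    refine ⟨v, lam, hD, hs.trans ?_⟩
    have hN0 : (0 : ℝ) ≤ N := Nat.cast_nonneg N
    have e1 : ((2 * N : ℕ) : ℝ) ^ (h + ε) = 2 ^ (h + ε) * (N : ℝ) ^ (h + ε) := by
      push_cast
      rw [Real.mul_rpow (by norm_num) hN0]
    rw [e1, mul_assoc]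
    exact mul_le_mul_of_nonneg_right (le_abs_self C) (by positivity)

/-- the codimensions in terms of the least codimension -/
theorem codR_iff {k : ℝ} {h : ℝ} : CodR k h ↔ ∀ a q : ℝ, 0 < a → h - k * a < q →
    ∃ C : ℝ, ∀ N : ℕ, 1 ≤ N → (codim a N : ℝ) ≤ C * (N : ℝ) ^ q := by
  constructor
  · intro H a q ha hq
    obtain ⟨N₀, hN₀⟩ := eventually_atTop.1 (H a q ha hq)
    have hf : ∀ n : ℕ, 0 ≤ (codim a n : ℝ) / (n : ℝ) ^ q := fun n => by positivity
    refine ⟨1 + ∑ n ∈ Finset.range N₀, (codim a n : ℝ) / (n : ℝ) ^ q, fun N hN => ?_⟩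
    have hN0 : (0 : ℝ) < N := by exact_mod_cast (by omega : 0 < N)
    have hp : 0 < (N : ℝ) ^ q := Real.rpow_pos_of_pos hN0 q
    rcases le_or_gt N₀ N with h1 | h1
    · have h2 := codim_le (hN₀ N h1)
      have h3 : 0 ≤ ∑ n ∈ Finset.range N₀, (codim a n : ℝ) / (n : ℝ) ^ q :=
        Finset.sum_nonneg fun n _ => hf n
      nlinarith
    · have h2 : (codim a N : ℝ) / (N : ℝ) ^ q ≤
          ∑ n ∈ Finset.range N₀, (codim a n : ℝ) / (n : ℝ) ^ q :=
        Finset.single_le_sum (f := fun n : ℕ => (codim a n : ℝ) / (n : ℝ) ^ q)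
          (fun n _ => hf n) (Finset.mem_range.2 h1)
      rw [div_le_iff₀ hp] at h2
      nlinarith
  · intro H a q ha hq
    obtain ⟨C, hC⟩ := H a ((q + (h - k * a)) / 2) ha (by linarith)
    have t0 : Tendsto (fun N : ℕ => (N : ℝ) ^ (q - (q + (h - k * a)) / 2)) atTop atTop :=
      (tendsto_rpow_atTop (by linarith)).comp tendsto_natCast_atTop_atTop
    filter_upwards [t0.eventually_ge_atTop C, eventually_ge_atTop 1] with N h1 h2
    have hN0 : (0 : ℝ) < N := by exact_mod_cast (by omega : 0 < N)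
    refine (sub_codim a N).mono ((hC N h2).trans ?_)
    calc C * (N : ℝ) ^ ((q + (h - k * a)) / 2) ≤
          (N : ℝ) ^ (q - (q + (h - k * a)) / 2) * (N : ℝ) ^ ((q + (h - k * a)) / 2) :=
          mul_le_mul_of_nonneg_right h1 (Real.rpow_nonneg hN0.le _)
      _ = (N : ℝ) ^ q := by
          rw [← Real.rpow_add hN0]
          congr 1
          ring

/-- **Moments and codimensions** -/
theorem momentsR_final (hLFR : T_LFR) (hINR : T_INR) (k : ℝ) (hk : 0 < k) (h : ℝ) (hh : 1 ≤ h) :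
    (∀ ε : ℝ, 0 < ε → ∃ C : ℝ, ∀ T : ℝ, 1 ≤ T →
      ∫ t in (0 : ℝ)..T, ‖riemannZeta (1 / 2 + t * Complex.I)‖ ^ (2 * k) ≤ C * T ^ (h + ε)) ↔
    (∀ a q : ℝ, 0 < a → h - k * a < q →
      ∃ C : ℝ, ∀ N : ℕ, 1 ≤ N → (codim a N : ℝ) ≤ C * (N : ℝ) ^ q) :=
  ⟨fun H => codR_iff.1 (cod_of_momR hINR hk hh H),
    fun H => momR_of_cod hLFR hk hh (codR_iff.2 H)⟩

end Pool.Agent.NBK
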