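import Pool.Agent.NBK.Trc
import Pool.Agent.NBL.Final4

/-!
# The least codimension
-/

set_option autoImplicit false

open MeasureTheory Set Filter Topology

namespace Pool.Agent.NBK

open Pool.Agent.NBL

/-- `I(F) = ∫ |F(1/2 + it)|² dt / (1/4 + t²)` -/
noncomputable def wnorm (F : ℂ → ℂ) : ℝ :=
  ∫ t : ℝ, ‖F (1 / 2 + t * Complex.I)‖ ^ 2 / (1 / 4 + t ^ 2)

/-- the Dirichlet polynomial `D(s) = ∑_{n ≤ N} c_n n ^ (-s)` -/
noncomputable def dpoly (N : ℕ) (c : Fin N → ℂ) (s : ℂ) : ℂ :=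
  ∑ i : Fin N, c i * (((i : ℕ) + 1 : ℕ) : ℂ) ^ (-s)

/-- the least codimension of a subspace of `ℂ ^ N` on which `I(ζ D) ≤ N ^ a I(D)` -/
noncomputable def codim (a : ℝ) (N : ℕ) : ℕ :=
  sInf {d : ℕ | ∃ V : Submodule ℂ (Fin N → ℂ), Module.finrank ℂ V + d = N ∧ ∀ c ∈ V,
    wnorm (fun s => riemannZeta s * dpoly N c s) ≤ (N : ℝ) ^ a * wnorm (dpoly N c)}

lemma wnorm_nonneg (F : ℂ → ℂ) : 0 ≤ wnorm F := integral_nonneg fun t => by positivity

lemma codim_le {a : ℝ} {N : ℕ} {x : ℝ} (h : Sub a N x) : (codim a N : ℝ) ≤ x := by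
  obtain ⟨V, hV, hc⟩ := h
  have h1 : Module.finrank ℂ V ≤ N := by
    have := Submodule.finrank_le V
    rwa [Module.finrank_fin_fun] at this
  have h2 : codim a N ≤ N - Module.finrank ℂ V :=
    Nat.sInf_le ⟨V, by omega, fun c hcV => hc c hcV⟩
  have h3 : (codim a N : ℝ) ≤ ((N - Module.finrank ℂ V : ℕ) : ℝ) := by exact_mod_cast h2
  rw [Nat.cast_sub h1] at h3
  linarith

lemma sub_codim (a : ℝ) (N : ℕ) : Sub a N (codim a N) := by
  have h : (codim a N) ∈ {d : ℕ | ∃ V : Submodule ℂ (Fin N → ℂ), Module.finrank ℂ V + d = N ∧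
      ∀ c ∈ V, wnorm (fun s => riemannZeta s * dpoly N c s) ≤
        (N : ℝ) ^ a * wnorm (dpoly N c)} := by
    refine Nat.sInf_mem ⟨N, ⊥, by rw [finrank_bot, zero_add], fun c hc => ?_⟩
    rw [Submodule.mem_bot] at hc
    have e : dpoly N c = fun _ => 0 := by
      funext s
      unfold dpoly
      rw [hc]
      simp
    rw [e]
    unfold wnorm
    simp
  obtain ⟨V, hV, hc⟩ := h
  refine ⟨V, ?_, fun c hcV => hc c hcV⟩
  have h2 : (Module.finrank ℂ V : ℝ) + codim a N = N := by exact_mod_cast hV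
  linarith

lemma Sub.mono {a : ℝ} {N : ℕ} {x y : ℝ} (h : Sub a N x) (hxy : x ≤ y) : Sub a N y := by
  obtain ⟨V, hV, hc⟩ := h
  exact ⟨V, by linarith, hc⟩

lemma sub_iff (a : ℝ) (N : ℕ) (x : ℝ) : Sub a N x ↔ (codim a N : ℝ) ≤ x :=
  ⟨codim_le, fun h => (sub_codim a N).mono h⟩

lemma sub_of_all {a : ℝ} {N : ℕ} {x : ℝ} (hx : 0 ≤ x) (h : ∀ c : Fin N → ℂ,
    ∫ t : ℝ, ‖riemannZeta (1 / 2 + t * Complex.I) * NBR.DF N c (1 / 2 + t * Complex.I)‖ ^ 2 /
        (1 / 4 + t ^ 2) ≤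
      (N : ℝ) ^ a * ∫ t : ℝ, ‖NBR.DF N c (1 / 2 + t * Complex.I)‖ ^ 2 / (1 / 4 + t ^ 2)) :
    Sub a N x :=
  ⟨⊤, by rw [finrank_top, Module.finrank_fin_fun]; linarith, fun c _ => h c⟩

/-- a bound for zeta from the fourth moment -/
theorem mu_quarter : Mu (1 / 4) := by
  have h := mom_mu (NBM.p_PMX NBM.p_PRP) (k := 1) (θ := 1) zero_le_one NBE.p_FOU
  norm_num at h
  norm_num
  exact h

/-- moments bound the codimensions -/
theorem cod_of_mom {k : ℕ} (hk : 1 ≤ k) {h : ℝ} (hh : 1 ≤ h) (H : NBM.Mom k h) : Cod k h := by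
  intro e q he hq
  have hk0 : (0 : ℝ) < k := by exact_mod_cast (by omega : 0 < k)
  rcases lt_or_ge 0 q with h0 | h0
  · have hT : NBM.Tr k h := (moment_dict k hk h hh).1 H
    obtain ⟨N₀, hN₀⟩ := upt k h (by linarith) hT e q he h0 hq
    exact eventually_atTop.2 ⟨N₀, fun N hN => hN₀ N hN⟩
  · have hlt : h / k < e := by
      rw [div_lt_iff₀ hk0]
      linarith
    obtain ⟨A, hA, hA1, hA2, hA3⟩ : ∃ A : ℝ, 0 ≤ A ∧ A < 1 / 2 ∧ 2 * A < e ∧ Mu A := by
      rcases lt_or_ge (h / k) 1 with h1 | h1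
      · obtain ⟨k', rfl⟩ : ∃ k', k = k' + 1 := ⟨k - 1, by omega⟩
        have h2 := mom_mu (NBM.p_PMX NBM.p_PRP) (by linarith : 0 ≤ h) H
        have e1 : h / (2 * ((k' : ℝ) + 1)) = h / ((k' + 1 : ℕ) : ℝ) / 2 := by
          push_cast
          field_simp
        rw [e1] at h2
        have h3 : 0 ≤ h / ((k' + 1 : ℕ) : ℝ) := by positivity
        exact ⟨_, by linarith, by linarith, by linarith, h2⟩
      · exact ⟨1 / 4, by norm_num, by norm_num, by linarith, mu_quarter⟩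
    obtain ⟨N₀, hN₀⟩ := all_of_mu hA hA1 hA3 e hA2
    refine eventually_atTop.2 ⟨N₀, fun N hN => sub_of_all ?_ (hN₀ N hN)⟩
    exact Real.rpow_nonneg (Nat.cast_nonneg N) q

/-- the codimensions in terms of the least codimension -/
theorem cod_iff {k : ℕ} {h : ℝ} : Cod k h ↔ ∀ a q : ℝ, 0 < a → h - k * a < q →
    ∃ C : ℝ, ∀ N : ℕ, 1 ≤ N → (codim a N : ℝ) ≤ C * (N : ℝ) ^ q := by
  constructor
  · intro H a q ha hq
    obtain ⟨N₀, hN₀⟩ := eventually_atTop.1 (H a q ha hq)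
    have hf : ∀ n : ℕ, 0 ≤ (codim a n : ℝ) / (n : ℝ) ^ q := fun n => by positivity
    refine ⟨1 + ∑ n ∈ Finset.range N₀, (codim a n : ℝ) / (n : ℝ) ^ q, fun N hN => ?_⟩
    have hN0 : (0 : ℝ) < N := by exact_mod_cast (by omega : 0 < N)
    have hp : 0 < (N : ℝ) ^ q := Real.rpow_pos_of_pos hN0 q
    rcases le_or_gt N₀ N with h1 | h1
    · have h2 := codim_le (hN₀ N h1)
      have h3 : 0 ≤ ∑ n ∈ Finset.range N₀, (codim a n : ℝ) / (n : ℝ) ^ q :=
        Finset.sum_nonneg fun n _ => hf n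
      nlinarith
    · have h2 : (codim a N : ℝ) / (N : ℝ) ^ q ≤
          ∑ n ∈ Finset.range N₀, (codim a n : ℝ) / (n : ℝ) ^ q :=
        Finset.single_le_sum (f := fun n : ℕ => (codim a n : ℝ) / (n : ℝ) ^ q)
          (fun n _ => hf n) (Finset.mem_range.2 h1)
      rw [div_le_iff₀ hp] at h2
      nlinarith
  · intro H a q ha hq
    obtain ⟨C, hC⟩ := H a ((q + (h - k * a)) / 2) ha (by linarith)
    have t0 : Tendsto (fun N : ℕ => (N : ℝ) ^ (q - (q + (h - k * a)) / 2)) atTop atTop :=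
      (tendsto_rpow_atTop (by linarith)).comp tendsto_natCast_atTop_atTop
    filter_upwards [t0.eventually_ge_atTop C, eventually_ge_atTop 1] with N h1 h2
    have hN0 : (0 : ℝ) < N := by exact_mod_cast (by omega : 0 < N)
    refine (sub_codim a N).mono ((hC N h2).trans ?_)
    calc C * (N : ℝ) ^ ((q + (h - k * a)) / 2) ≤
          (N : ℝ) ^ (q - (q + (h - k * a)) / 2) * (N : ℝ) ^ ((q + (h - k * a)) / 2) :=
          mul_le_mul_of_nonneg_right h1 (Real.rpow_nonneg hN0.le _)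
      _ = (N : ℝ) ^ q := by
          rw [← Real.rpow_add hN0]
          congr 1
          ring

/-- **Moments, codimensions and traces** -/
theorem moments_final (k : ℕ) (hk : 1 ≤ k) (h : ℝ) (hh : 1 ≤ h) : List.TFAE [
    (∀ ε : ℝ, 0 < ε → ∃ C : ℝ, ∀ T : ℝ, 1 ≤ T →
      ∫ t in (0 : ℝ)..T, ‖riemannZeta (1 / 2 + t * Complex.I)‖ ^ (2 * k) ≤ C * T ^ (h + ε)),
    (∀ a q : ℝ, 0 < a → h - k * a < q →
      ∃ C : ℝ, ∀ N : ℕ, 1 ≤ N → (codim a N : ℝ) ≤ C * (N : ℝ) ^ q),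
    (∀ ε : ℝ, 0 < ε → ∃ C : ℝ, ∀ N : ℕ, 1 ≤ N →
      ((NBM.G N) ^ k).trace ≤ C * (N : ℝ) ^ (h + ε))] := by
  have h1 := moment_dict k hk h hh
  tfae_have 1 ↔ 3 := h1
  tfae_have 1 → 2 := fun H => cod_iff.1 (cod_of_mom hk hh H)
  tfae_have 2 → 3 := fun H => tr_of_cod hk hh (cod_iff.2 H)
  tfae_finish

/-- **Growth and codimensions** -/
theorem growth_final (A : ℝ) (hA : 0 ≤ A) (hA1 : A < 1 / 2) : List.TFAE [
    (∀ ε : ℝ, 0 < ε → ∃ C : ℝ, ∀ t : ℝ,
      ‖riemannZeta (1 / 2 + t * Complex.I)‖ ≤ C * (1 + |t|) ^ (A + ε)),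
    (∀ a : ℝ, 2 * A < a → ∃ N₀ : ℕ, ∀ N : ℕ, N₀ ≤ N → codim a N = 0),
    (∀ a : ℝ, 2 * A < a →
      Tendsto (fun N : ℕ => (codim a N : ℝ) / Real.log N) atTop (𝓝 0))] := by
  tfae_have 1 → 2 := by
    intro h a ha
    obtain ⟨N₀, hN₀⟩ := all_of_mu hA hA1 h a ha
    refine ⟨N₀, fun N hN => ?_⟩
    have h1 := codim_le (sub_of_all (a := a) (N := N) le_rfl (hN₀ N hN))
    have h2 : (codim a N : ℝ) = 0 := le_antisymm h1 (Nat.cast_nonneg _)
    exact_mod_cast h2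
  tfae_have 2 → 3 := by
    intro h a ha
    obtain ⟨N₀, hN₀⟩ := h a ha
    refine tendsto_const_nhds.congr' ?_
    filter_upwards [eventually_ge_atTop N₀] with N hN
    rw [hN₀ N hN, Nat.cast_zero, zero_div]
  tfae_have 3 → 1 := by
    intro h
    have key : ∀ A' : ℝ, A < A' → A' < 1 / 2 → Mu A' := by
      intro A' h1 h2
      have h3 := h (2 * A') (by linarith)
      refine (NBR.six_iff NBR.robust (by linarith) h2 (fun N => Nat.cast_nonneg _) h3).2 ?_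
      intro B hB hB1
      refine ⟨1, fun N => ?_⟩
      obtain ⟨V, hV, hc⟩ := sub_codim (2 * A') N
      refine ⟨V, hV, fun c hcV => (hc c hcV).trans ?_⟩
      rw [one_mul]
      refine mul_le_mul_of_nonneg_right ?_ (integral_nonneg fun t => by positivity)
      rcases Nat.eq_zero_or_pos N with h0 | h0
      · rw [h0, Nat.cast_zero, Real.zero_rpow (by linarith), Real.zero_rpow (by linarith)]
      · exact Real.rpow_le_rpow_of_exponent_le (by exact_mod_cast h0) (by linarith)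
    intro ε hε
    obtain ⟨A', h1, h2, h3⟩ : ∃ A' : ℝ, A < A' ∧ A' < 1 / 2 ∧ A' < A + ε := by
      refine ⟨(A + min (1 / 2) (A + ε)) / 2, ?_, ?_, ?_⟩
      · have : A < min (1 / 2) (A + ε) := lt_min hA1 (by linarith)
        linarith
      · have : min (1 / 2) (A + ε) ≤ 1 / 2 := min_le_left _ _
        linarith
      · have : min (1 / 2) (A + ε) ≤ A + ε := min_le_right _ _
        linarith
    obtain ⟨C, hC⟩ := key A' h1 h2 (A + ε - A') (by linarith)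
    refine ⟨C, fun t => ?_⟩
    have := hC t
    rwa [show A' + (A + ε - A') = A + ε by ring] at this
  tfae_finish

end Pool.Agent.NBK
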