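import Pool.Agent.NBK.CntR

/-!
# Moments with real exponents and codimensions
-/

set_option autoImplicit false

open MeasureTheory Complex Set Filter Topology
open scoped ENNReal InnerProductSpace ComplexConjugate

namespace Pool.Agent.NBK

open Pool.Agent.NBL Pool.Agent.NBR Pool.Agent.NBE

/-- the codimensions for all the levels, real exponents -/
def CodR (p : ℝ) (h : ℝ) : Prop := ∀ e q : ℝ, 0 < e → h - p * e < q →
  ∀ᶠ N : ℕ in atTop, Sub e N ((N : ℝ) ^ q)

/-- counting bounds give subspaces -/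
theorem cod_of_cnt {p h : ℝ} (hh : 0 ≤ h) (H : ∀ ε : ℝ, 0 < ε → ∃ C : ℝ, 0 ≤ C ∧
    ∀ N : ℕ, 1 ≤ N → ∀ (v : OrthonormalBasis (Fin N) ℂ (EuclideanSpace ℂ (Fin N)))
      (lam : Fin N → ℝ), Dg N v lam → ∀ Λ : ℝ, 0 < Λ →
        ((Finset.univ.filter fun i => Λ < lam i).card : ℝ) * Λ ^ p ≤ C * (N : ℝ) ^ (h + ε))
    (e q : ℝ) (hq0 : 0 < q) (hq : h - p * e < q) :
    ∀ᶠ N : ℕ in atTop, Sub e N ((N : ℝ) ^ q) := by
  set η : ℝ := (q - (h - p * e)) / 2 with hη
  have hη0 : 0 < η := by rw [hη]; linarith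
  obtain ⟨C, hC0, hC⟩ := H η hη0
  obtain ⟨N₁, hN₁⟩ := UPT_.ev (2 ^ p * C) (h + η - p * e) q hq0 (by rw [hη]; linarith)
  refine eventually_atTop.2 ⟨max N₁ 2, fun N hN => ?_⟩
  have hNa : N₁ ≤ N := (le_max_left _ _).trans hN
  have hN2 : 2 ≤ N := (le_max_right _ _).trans hN
  obtain ⟨m, rfl⟩ : ∃ m, N = m + 1 := ⟨N - 1, by omega⟩
  have hm1 : 1 ≤ m := by omega
  have hm0 : (0 : ℝ) < m := by exact_mod_cast (by omega : 0 < m)
  have hcast : ((m + 1 : ℕ) : ℝ) = m + 1 := by push_cast; ring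
  have hev := hN₁ (m + 1) hNa
  set N : ℝ := ((m + 1 : ℕ) : ℝ) with hNd
  have hN0 : 0 < N := by rw [hcast]; linarith
  have hmN : (m : ℝ) ≤ N := by rw [hcast]; linarith
  set Λ : ℝ := N ^ e / 2 with hΛ
  have hΛ0 : 0 < Λ := by rw [hΛ]; positivity
  obtain ⟨v, lam, hlam0, hqf, -⟩ := NBM.p_SPE m
  have hcnt := hC m hm1 v lam ⟨hlam0, hqf⟩ Λ hΛ0
  classical
  set J : Finset (Fin m) := Finset.univ.filter fun i => lam i ≤ Λ with hJ
  set L : Finset (Fin m) := Finset.univ.filter fun i => Λ < lam i with hL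
  have hc : J.card + L.card = m := by
    have hL' : L = Finset.univ.filter fun i => ¬ lam i ≤ Λ := by
      rw [hL]
      exact Finset.filter_congr fun i _ => by rw [not_le]
    rw [hJ, hL', Finset.card_filter_add_card_filter_not, Finset.card_univ, Fintype.card_fin]
  obtain ⟨V, hV, hx⟩ := SPC_.span_part v J
  refine ⟨V.map (Lm m), ?_, ?_⟩
  · rw [← (Submodule.equivMapOfInjective (Lm m) (Lm_inj m) V).finrank_eq, hV]
    have e1 : Λ ^ p = N ^ (p * e) / 2 ^ p := by
      rw [hΛ, Real.div_rpow (Real.rpow_nonneg hN0.le _) (by norm_num), ← Real.rpow_mul hN0.le,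
        mul_comm e]
    have e2 : (L.card : ℝ) ≤ 2 ^ p * C * N ^ (h + η - p * e) := by
      rw [e1] at hcnt
      have h1 : C * (m : ℝ) ^ (h + η) ≤ C * N ^ (h + η) :=
        mul_le_mul_of_nonneg_left (Real.rpow_le_rpow hm0.le hmN (by linarith)) hC0
      have h2 : (L.card : ℝ) * (N ^ (p * e) / 2 ^ p) ≤ C * N ^ (h + η) := hcnt.trans h1
      have h3 : (0 : ℝ) < N ^ (p * e) := Real.rpow_pos_of_pos hN0 _
      have h4 : (0 : ℝ) < 2 ^ p := by positivity
      rw [mul_div_assoc', div_le_iff₀ h4] at h2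
      rw [Real.rpow_sub hN0, mul_div_assoc', le_div_iff₀ h3]
      linarith
    have e3 : (m : ℝ) = N - 1 := by rw [hcast]; ring
    have e4 : (J.card : ℝ) + L.card = m := by exact_mod_cast hc
    linarith
  · rintro c ⟨a, ha, rfl⟩
    obtain ⟨x, hxa, hx0⟩ := hx a ha
    have h1 : NBM.Qf m a = NBM.Qf m x := by
      congr 1
      exact funext fun i => (hxa i).symm
    have hn : ∑ i, ‖a i‖ ^ 2 = ∑ i, ‖⟪v i, x⟫_ℂ‖ ^ 2 := by
      rw [v.sum_sq_norm_inner_right x, EuclideanSpace.norm_sq_eq]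
      exact Finset.sum_congr rfl fun i _ => by rw [hxa i]
    have h2 : NBM.Qf m a ≤ Λ * ∑ i, ‖a i‖ ^ 2 := by
      rw [h1, hqf x, hn, Finset.mul_sum]
      refine Finset.sum_le_sum fun i _ => ?_
      by_cases hi : i ∈ J
      · rw [hJ, Finset.mem_filter] at hi
        exact mul_le_mul_of_nonneg_right hi.2 (by positivity)
      · rw [hx0 i hi]
        simp
    have h3 := UPT_.core m Λ hΛ0.le a h2
    have e4 : 2 * Λ = N ^ e := by rw [hΛ]; ring
    rw [e4] at h3
    exact h3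

/-- the layer cake inequality with a real exponent -/
lemma layerR {p : ℝ} (hp : 0 ≤ p) {x y : ℝ} (hx : 0 ≤ x) (hy : 1 ≤ y) (J : ℕ)
    (h : x ≤ y ^ (J + 1)) :
    x ^ p ≤ y ^ p + ∑ j ∈ Finset.range J, if y ^ (j + 1) < x then (y ^ (j + 2)) ^ p else 0 := by
  have hy0 : 0 < y := by linarith
  induction J with
  | zero => simpa using Real.rpow_le_rpow hx (by simpa using h) hp
  | succ J ih =>
    rw [Finset.sum_range_succ]
    by_cases h1 : x ≤ y ^ (J + 1)
    · have h2 := ih h1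
      have h3 : (0 : ℝ) ≤ if y ^ (J + 1) < x then (y ^ (J + 2)) ^ p else 0 := by
        split_ifs <;> positivity
      linarith
    · rw [if_pos (not_le.1 h1)]
      have h2 : x ^ p ≤ (y ^ (J + 2)) ^ p := Real.rpow_le_rpow hx h hp
      have h3 : 0 ≤ ∑ j ∈ Finset.range J, if y ^ (j + 1) < x then (y ^ (j + 2)) ^ p else 0 :=
        Finset.sum_nonneg fun j _ => by split_ifs <;> positivity
      have h4 : 0 ≤ y ^ p := by positivity
      linarith

/-- subspaces bound the sums of powers of the eigenvalues -/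
theorem sum_of_cod {p : ℝ} (hp : 0 < p) {h : ℝ} (hh : 1 ≤ h) (H : CodR p h) :
    ∀ ε : ℝ, 0 < ε → ∃ C : ℝ, ∀ N : ℕ, 1 ≤ N →
      ∃ (v : OrthonormalBasis (Fin N) ℂ (EuclideanSpace ℂ (Fin N))) (lam : Fin N → ℝ),
        Dg N v lam ∧ ∑ i, lam i ^ p ≤ C * (N : ℝ) ^ (h + ε) := by
  intro ε hε
  choose v lam hlam0 hq htr using NBM.p_SPE
  set δ : ℝ := ε / (p + 1) with hδ
  have hδ0 : 0 < δ := by positivity
  have hδe : (p + 1) * δ = ε := by rw [hδ]; field_simp
  obtain ⟨J, hJ⟩ := exists_nat_gt ((h + 1) / (p * δ))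
  have hJ2 : h + 1 < J * (p * δ) := by
    rwa [div_lt_iff₀ (by positivity)] at hJ
  -- the levels
  have E1 : ∀ᶠ N : ℕ in atTop, ∀ j ∈ Finset.range J,
      Sub ((j + 1) * δ) N ((N : ℝ) ^ (h - p * ((j + 1) * δ) + δ)) := by
    rw [Filter.eventually_all_finset]
    intro j _
    exact H _ _ (by positivity) (by linarith)
  have E2 : ∀ᶠ N : ℕ in atTop, Sub ((J + 1) * δ) N ((N : ℝ) ^ (-1 : ℝ)) := by
    refine H _ _ (by positivity) ?_
    have : 0 < p * δ := by positivity
    nlinarith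
  obtain ⟨N₁, hN₁⟩ := eventually_atTop.1 (E1.and E2)
  have main : ∀ m : ℕ, max N₁ 2 ≤ m + 1 →
      ∑ i, lam m i ^ p ≤ (J + 1) * ((m + 1 : ℕ) : ℝ) ^ (h + ε) := by
    intro m hm
    have hm1 : N₁ ≤ m + 1 := (le_max_left _ _).trans hm
    have hm2 : 2 ≤ m + 1 := (le_max_right _ _).trans hm
    obtain ⟨F1, F2⟩ := hN₁ (m + 1) hm1
    set N : ℝ := ((m + 1 : ℕ) : ℝ) with hN
    have hN2 : (2 : ℝ) ≤ N := by rw [hN]; exact_mod_cast hm2
    have hN0 : 0 < N := by linarith
    have hN1 : 1 ≤ N := by linarith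
    set y : ℝ := N ^ δ with hy
    have hy1 : 1 ≤ y := Real.one_le_rpow hN1 hδ0.le
    have hyp : ∀ j : ℕ, y ^ j = N ^ (j * δ) := by
      intro j
      rw [hy, ← Real.rpow_natCast, ← Real.rpow_mul hN0.le, mul_comm δ]
    -- counting
    have cnt : ∀ (e x : ℝ), Sub e (m + 1) x →
        ((Finset.univ.filter fun i => N ^ e < lam m i).card : ℝ) ≤ x := by
      rintro e x ⟨V, hV1, hV2⟩
      have h1 := count (hq m) (Real.rpow_nonneg hN0.le e) hV2
      have h2 : ((Finset.univ.filter fun i => N ^ e < lam m i).card : ℝ) +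
          Module.finrank ℂ V ≤ N := by
        rw [hN]
        exact_mod_cast h1
      linarith
    have top : ∀ i, lam m i ≤ y ^ (J + 1) := by
      have h1 := cnt _ _ F2
      have h2 : N ^ (-1 : ℝ) < 1 := by
        rw [Real.rpow_neg_one]
        exact inv_lt_one_of_one_lt₀ (by linarith)
      have h3 : (Finset.univ.filter fun i => N ^ ((J + 1) * δ) < lam m i).card < 1 := by
        exact_mod_cast h1.trans_lt h2
      have h4 : (Finset.univ.filter fun i => N ^ ((J + 1) * δ) < lam m i) = ∅ := by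
        rw [← Finset.card_eq_zero]
        omega
      intro i
      by_contra h5
      have h6 : i ∈ (Finset.univ.filter fun i => N ^ ((J + 1) * δ) < lam m i) := by
        rw [Finset.mem_filter]
        refine ⟨Finset.mem_univ i, ?_⟩
        rw [not_le, hyp] at h5
        push_cast at h5
        exact h5
      rw [h4] at h6
      exact absurd h6 (Finset.notMem_empty i)
    have s1 : ∑ i, lam m i ^ p ≤ ∑ i : Fin m, (y ^ p +
        ∑ j ∈ Finset.range J, if y ^ (j + 1) < lam m i then (y ^ (j + 2)) ^ p else 0) :=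
      Finset.sum_le_sum fun i _ => layerR hp.le (hlam0 m i) hy1 J (top i)
    refine s1.trans ?_
    rw [Finset.sum_add_distrib, Finset.sum_comm, Finset.sum_const, Finset.card_univ,
      Fintype.card_fin, nsmul_eq_mul]
    have s2 : (m : ℝ) * y ^ p ≤ N ^ (h + ε) := by
      calc (m : ℝ) * y ^ p ≤ N ^ (1 : ℝ) * N ^ (p * δ) := by
            rw [hy, ← Real.rpow_mul hN0.le, mul_comm δ, Real.rpow_one]
            refine mul_le_mul_of_nonneg_right ?_ (Real.rpow_nonneg hN0.le _)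
            rw [hN]
            push_cast
            linarith
        _ = N ^ (1 + p * δ) := by rw [← Real.rpow_add hN0]
        _ ≤ N ^ (h + ε) := Real.rpow_le_rpow_of_exponent_le hN1 (by nlinarith)
    have s3 : ∀ j ∈ Finset.range J,
        ∑ i, (if y ^ (j + 1) < lam m i then (y ^ (j + 2)) ^ p else 0) ≤ N ^ (h + ε) := by
      intro j hj
      rw [← Finset.sum_filter, Finset.sum_const, nsmul_eq_mul]
      have h1 := cnt _ _ (F1 j hj)
      have h2 : y ^ (j + 1) = N ^ ((j + 1) * δ) := by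
        rw [hyp]
        push_cast
        rfl
      rw [h2]
      calc ((Finset.univ.filter fun i => N ^ ((j + 1) * δ) < lam m i).card : ℝ) *
            (y ^ (j + 2)) ^ p ≤ N ^ (h - p * ((j + 1) * δ) + δ) * (y ^ (j + 2)) ^ p :=
            mul_le_mul_of_nonneg_right h1 (by positivity)
        _ = N ^ (h + ε) := by
            rw [hyp, ← Real.rpow_mul hN0.le, ← Real.rpow_add hN0]
            congr 1
            rw [← hδe]
            push_cast
            ring
    have s4 : ∑ j ∈ Finset.range J,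
        ∑ i, (if y ^ (j + 1) < lam m i then (y ^ (j + 2)) ^ p else 0) ≤ J * N ^ (h + ε) := by
      refine (Finset.sum_le_sum s3).trans (le_of_eq ?_)
      rw [Finset.sum_const, Finset.card_range, nsmul_eq_mul]
    linarith
  -- all N
  refine ⟨(J + 1) * 2 ^ (h + ε) +
    ∑ m ∈ Finset.range (max N₁ 2), |∑ i, lam m i ^ p|, fun m hm =>
      ⟨v m, lam m, ⟨hlam0 m, hq m⟩, ?_⟩⟩
  have hm1 : (1 : ℝ) ≤ m := by exact_mod_cast hm
  have hm0 : (0 : ℝ) < m := by linarith
  have hP : 1 ≤ (m : ℝ) ^ (h + ε) := Real.one_le_rpow hm1 (by linarith)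
  have hS : 0 ≤ ∑ m ∈ Finset.range (max N₁ 2), |∑ i, lam m i ^ p| :=
    Finset.sum_nonneg fun _ _ => abs_nonneg _
  have hS2 : (0 : ℝ) ≤ (J + 1) * 2 ^ (h + ε) := by positivity
  rcases le_or_gt (max N₁ 2) (m + 1) with h1 | h1
  · have h2 := main m h1
    have h3 : ((m + 1 : ℕ) : ℝ) ^ (h + ε) ≤ 2 ^ (h + ε) * (m : ℝ) ^ (h + ε) := by
      rw [← Real.mul_rpow (by norm_num) hm0.le]
      apply Real.rpow_le_rpow (by positivity) _ (by linarith)
      push_cast
      linarith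
    have h4 : ((J : ℝ) + 1) * ((m + 1 : ℕ) : ℝ) ^ (h + ε) ≤
        (J + 1) * (2 ^ (h + ε) * (m : ℝ) ^ (h + ε)) :=
      mul_le_mul_of_nonneg_left h3 (by positivity)
    nlinarith
  · have h2 : |∑ i, lam m i ^ p| ≤ ∑ m ∈ Finset.range (max N₁ 2), |∑ i, lam m i ^ p| :=
      Finset.single_le_sum (f := fun m => |∑ i, lam m i ^ p|)
        (fun _ _ => abs_nonneg _) (Finset.mem_range.2 (by omega))
    have h3 := le_abs_self (∑ i, lam m i ^ p)
    nlinarith

end Pool.Agent.NBK
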