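import Pool.Agent.NBK.Kdef

/-!
# The unconditional two-sided bound and the Lindelöf hypothesis
-/

set_option autoImplicit false

open MeasureTheory Set Filter Topology

namespace Pool.Agent.NBK

open Pool.Agent.NBL

lemma dpoly_xa (N : ℕ) (c : Fin N → ℂ) (s : ℂ) :
    dpoly N c s = ∑ n ∈ Finset.Icc 1 N, xa N c n * (n : ℂ) ^ (-s) := by
  unfold dpoly
  rw [fin_sum fun n => xa N c n * (n : ℂ) ^ (-s)]
  exact Finset.sum_congr rfl fun i _ => by rw [xa_apply]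

/-- **The unconditional two-sided bound** -/
theorem two_final : ∀ a q : ℝ, 0 < a → 1 - 2 * a < q → ∃ N₀ : ℕ, ∀ N : ℕ, N₀ ≤ N →
    ∃ V : Submodule ℂ (Fin N → ℂ), (N : ℝ) - (N : ℝ) ^ q ≤ Module.finrank ℂ V ∧ ∀ c ∈ V,
      (N : ℝ) ^ (-(2 * a)) * wnorm (dpoly N c) ≤ wnorm (fun s => riemannZeta s * dpoly N c s) ∧
        wnorm (fun s => riemannZeta s * dpoly N c s) ≤ (N : ℝ) ^ a * wnorm (dpoly N c) := by
  intro a q ha hq
  rcases lt_or_ge 0 q with h0 | h0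
  · exact part_b2 a q ha h0 hq
  · obtain ⟨N₁, hN₁⟩ := all_of_mu (by norm_num) (by norm_num) mu_quarter a (by linarith)
    have t0 : Tendsto (fun N : ℕ => (N : ℝ) ^ (2 * a - 1)) atTop atTop :=
      (tendsto_rpow_atTop (by linarith)).comp tendsto_natCast_atTop_atTop
    obtain ⟨N₂, hN₂⟩ := eventually_atTop.1 (t0.eventually_ge_atTop 36)
    refine ⟨max (max N₁ N₂) 1, fun N hN => ⟨⊤, ?_, fun c _ => ⟨?_, hN₁ N ?_ c⟩⟩⟩
    · rw [finrank_top, Module.finrank_fin_fun]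
      have : (0 : ℝ) ≤ (N : ℝ) ^ q := Real.rpow_nonneg (Nat.cast_nonneg N) q
      linarith
    · have hNb : N₂ ≤ N := (le_max_right _ _).trans ((le_max_left _ _).trans hN)
      have hN1 : 1 ≤ N := (le_max_right _ _).trans hN
      have hN0 : (0 : ℝ) < N := by exact_mod_cast (by omega : 0 < N)
      have h1 := part_b1 1 N (xa N c) le_rfl hN1
      have e1 : wnorm (dpoly N c) = ∫ t : ℝ, ‖∑ n ∈ Finset.Icc 1 N, xa N c n *
          (n : ℂ) ^ (-(1 / 2 + t * Complex.I))‖ ^ 2 / (1 / 4 + t ^ 2) := by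
        unfold wnorm
        simp_rw [dpoly_xa]
      have e2 : wnorm (fun s => riemannZeta s * dpoly N c s) =
          ∫ t : ℝ, ‖riemannZeta (1 / 2 + t * Complex.I) * ∑ n ∈ Finset.Icc 1 N, xa N c n *
            (n : ℂ) ^ (-(1 / 2 + t * Complex.I))‖ ^ 2 / (1 / 4 + t ^ 2) := by
        unfold wnorm
        simp_rw [dpoly_xa]
      rw [← e1, ← e2, Nat.cast_one, div_one] at h1
      have h2 : 0 ≤ wnorm (fun s => riemannZeta s * dpoly N c s) := wnorm_nonneg _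
      have h3 : (0 : ℝ) < (N : ℝ) ^ (2 * a) := Real.rpow_pos_of_pos hN0 _
      have h4 : 36 * (N : ℝ) ≤ (N : ℝ) ^ (2 * a) := by
        have h5 := hN₂ N hNb
        have h6 : (N : ℝ) ^ (2 * a) = (N : ℝ) ^ (2 * a - 1) * N := by
          have h7 := Real.rpow_add hN0 (2 * a - 1) 1
          rwa [Real.rpow_one, sub_add_cancel] at h7
        rw [h6]
        exact mul_le_mul_of_nonneg_right h5 hN0.le
      rw [Real.rpow_neg hN0.le, inv_mul_le_iff₀ h3]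
      exact h1.trans (mul_le_mul_of_nonneg_right h4 h2)
    · exact (le_max_left _ _).trans ((le_max_left _ _).trans hN)

/-- the two-sided bound for all Dirichlet polynomials -/
theorem all_iff : (∀ ε : ℝ, 0 < ε → ∃ N₀ : ℕ, ∀ N : ℕ, N₀ ≤ N → ∀ c : ℕ → ℂ,
        (N : ℝ) ^ (-ε) * ∫ t : ℝ, ‖∑ n ∈ Finset.Icc 1 N, c n *
              (n : ℂ) ^ (-(1 / 2 + t * Complex.I))‖ ^ 2 / (1 / 4 + t ^ 2) ≤
            ∫ t : ℝ, ‖riemannZeta (1 / 2 + t * Complex.I) * ∑ n ∈ Finset.Icc 1 N, c n *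
              (n : ℂ) ^ (-(1 / 2 + t * Complex.I))‖ ^ 2 / (1 / 4 + t ^ 2) ∧
          ∫ t : ℝ, ‖riemannZeta (1 / 2 + t * Complex.I) * ∑ n ∈ Finset.Icc 1 N, c n *
              (n : ℂ) ^ (-(1 / 2 + t * Complex.I))‖ ^ 2 / (1 / 4 + t ^ 2) ≤
            (N : ℝ) ^ ε * ∫ t : ℝ, ‖∑ n ∈ Finset.Icc 1 N, c n *
              (n : ℂ) ^ (-(1 / 2 + t * Complex.I))‖ ^ 2 / (1 / 4 + t ^ 2)) ↔
    (∀ ε : ℝ, 0 < ε → ∃ N₀ : ℕ, ∀ N : ℕ, N₀ ≤ N → ∀ c : Fin N → ℂ,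
      (N : ℝ) ^ (-ε) * wnorm (dpoly N c) ≤ wnorm (fun s => riemannZeta s * dpoly N c s) ∧
        wnorm (fun s => riemannZeta s * dpoly N c s) ≤ (N : ℝ) ^ ε * wnorm (dpoly N c)) := by
  refine forall_congr' fun ε => forall_congr' fun _ => exists_congr fun N₀ =>
    forall_congr' fun N => forall_congr' fun _ => ⟨fun H c => ?_, fun H c => ?_⟩
  · have h := H (xa N c)
    unfold wnorm
    simp_rw [dpoly_xa]
    exact h
  · have h := H (fun i => c (i + 1))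
    have e : ∀ s : ℂ, dpoly N (fun i => c (i + 1)) s =
        ∑ n ∈ Finset.Icc 1 N, c n * (n : ℂ) ^ (-s) := by
      intro s
      unfold dpoly
      rw [fin_sum fun n => c n * (n : ℂ) ^ (-s)]
    unfold wnorm at h
    simp_rw [e] at h
    exact h

/-- **The Lindelöf hypothesis** -/
theorem lindelof_final5 :
    List.TFAE [
      (∀ ε : ℝ, 0 < ε → ∃ C : ℝ, ∀ t : ℝ,
        ‖riemannZeta (1 / 2 + t * Complex.I)‖ ≤ C * (1 + |t|) ^ ε),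
      (∀ ε : ℝ, 0 < ε → ∃ N₀ : ℕ, ∀ N : ℕ, N₀ ≤ N → ∀ c : Fin N → ℂ,
        (N : ℝ) ^ (-ε) * wnorm (dpoly N c) ≤ wnorm (fun s => riemannZeta s * dpoly N c s) ∧
          wnorm (fun s => riemannZeta s * dpoly N c s) ≤ (N : ℝ) ^ ε * wnorm (dpoly N c)),
      -- the Gram matrices of the Nyman–Beurling functions
      (∀ ε : ℝ, 0 < ε → ∃ N₀ : ℕ, ∀ N : ℕ, N₀ ≤ N → ∀ c : ℕ → ℂ,
        (N : ℝ) ^ (-ε) * ∑ j ∈ Finset.Icc 1 N, ∑ k ∈ Finset.Icc 1 N,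
              (c j * (starRingEnd ℂ) (c k)).re / (max j k : ℕ) ≤
            ∫ t in Ioi (0 : ℝ),
              ‖∑ k ∈ Finset.Icc 1 N, c k * ((Int.fract (1 / (k * t)) : ℝ) : ℂ)‖ ^ 2 ∧
          ∫ t in Ioi (0 : ℝ),
              ‖∑ k ∈ Finset.Icc 1 N, c k * ((Int.fract (1 / (k * t)) : ℝ) : ℂ)‖ ^ 2 ≤
            (N : ℝ) ^ ε * ∑ j ∈ Finset.Icc 1 N, ∑ k ∈ Finset.Icc 1 N,
              (c j * (starRingEnd ℂ) (c k)).re / (max j k : ℕ)),
      -- the condition numbers of the Gram matrices of `n h_n`, `n ≤ N`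
      (∀ ε : ℝ, 0 < ε → ∃ N₀ : ℕ, ∀ N : ℕ, N₀ ≤ N → ∀ a b : ℕ → ℂ,
        ∑ n ∈ Finset.Icc 1 N, ‖a n‖ ^ 2 = ∑ n ∈ Finset.Icc 1 N, ‖b n‖ ^ 2 →
          ∫ t in Ioi (0 : ℝ), ‖∑ n ∈ Finset.Icc 1 N, a n * ((n *
              (Int.fract (1 / (n * t)) - Int.fract (1 / ((n + 1) * t))) : ℝ) : ℂ)‖ ^ 2 ≤
            (N : ℝ) ^ ε * ∫ t in Ioi (0 : ℝ), ‖∑ n ∈ Finset.Icc 1 N, b n * ((n *
              (Int.fract (1 / (n * t)) - Int.fract (1 / ((n + 1) * t))) : ℝ) : ℂ)‖ ^ 2),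
      -- the traces of the powers of these Gram matrices
      (∀ k : ℕ, 1 ≤ k → (∀ ε : ℝ, 0 < ε → ∃ C : ℝ, ∀ N : ℕ, 1 ≤ N →
          ((NBM.G N) ^ k).trace ≤ C * (N : ℝ) ^ (1 + ε)))] := by
  have h := lindelof_final3
  rw [all_iff] at h
  exact h

end Pool.Agent.NBK
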