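import Pool.Agent.NBM.Targets
import Pool.Agent.NBM.P_LHK
import Pool.Agent.NBL.Small

/-!
# A single moment bounds the zeta function
-/

set_option autoImplicit false

open MeasureTheory Complex Set Filter Topology

namespace Pool.Agent.NBK

open Pool.Agent.NBL Pool.Agent.NBM Pool.Agent.NBM.LHK_

/-- the mean square over a window -/
lemma mean1 {k : ℕ} {θ : ℝ} (hθ : 0 ≤ θ) (ε : ℝ) (hε : 0 < ε) (h : Mom (k + 1) θ) :
    ∃ D : ℝ, 0 ≤ D ∧ ∀ T : ℝ, 20 ≤ T →
      ∫ v in Icc (T - 2 * Real.log T) (T + 2 * Real.log T), Z v ^ 2 ≤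
        D * T ^ (θ / (k + 1) + 2 * ε) := by
  have hk0 : (0 : ℝ) < k + 1 := by positivity
  obtain ⟨C, hC⟩ := h ((k + 1) * ε) (by positivity)
  have hC0 : 0 ≤ C := by
    have h1 := hC 1 le_rfl
    have h2 : 0 ≤ ∫ t in (0 : ℝ)..1, Z t ^ (2 * (k + 1)) :=
      intervalIntegral.integral_nonneg (by norm_num) fun t _ => pow_nonneg (z_nonneg t) _
    rw [Real.one_rpow] at h1
    linarith
  set P : ℝ := (2 : ℝ) ^ (θ + (k + 1) * ε) with hP
  have hP0 : 0 < P := by positivity
  refine ⟨4 / ε + P * C, by positivity, fun T hT => ?_⟩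
  have hT0 : 0 < T := by linarith
  have hT1 : 1 ≤ T := by linarith
  have hlog : 0 ≤ Real.log T := Real.log_nonneg hT1
  have hlh := log_half hT0
  set lam : ℝ := T ^ (θ / (k + 1) + ε) with hlam
  have hl1 : 1 ≤ lam := Real.one_le_rpow hT1 (by positivity)
  have hl0 : 0 < lam := by linarith
  set E : ℝ := T ^ ε with hE
  have hE1 : 1 ≤ E := Real.one_le_rpow hT1 hε.le
  have hll : T ^ (θ / (k + 1) + 2 * ε) = lam * E := by
    rw [hlam, hE, ← Real.rpow_add hT0]
    congr 1
    ring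
  have hlk : T ^ (θ + (k + 1) * ε) = lam ^ (k + 1) := by
    rw [hlam, ← Real.rpow_natCast, ← Real.rpow_mul hT0.le]
    congr 1
    push_cast
    field_simp
  have hlogT : Real.log T ≤ E / ε := Real.log_le_rpow_div hT0.le hε
  set a : ℝ := T - 2 * Real.log T with ha
  set b : ℝ := T + 2 * Real.log T with hb
  have hab : a ≤ b := by linarith
  rw [integral_Icc_eq_integral_Ioc, ← intervalIntegral.integral_of_le hab]
  have h1 : ∫ t in a..b, Z t ^ 2 ≤
      ∫ t in a..b, (lam + (lam ^ k)⁻¹ * Z t ^ (2 * (k + 1))) :=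
    intervalIntegral.integral_mono_on hab (z_int _ _ _)
      ((continuous_const.add (continuous_const.mul (z_cont.pow _))).intervalIntegrable _ _)
      fun t _ => split k _ lam (z_nonneg _) hl0
  have h2 : ∫ t in a..b, (lam + (lam ^ k)⁻¹ * Z t ^ (2 * (k + 1))) =
      (b - a) * lam + (lam ^ k)⁻¹ * ∫ t in a..b, Z t ^ (2 * (k + 1)) := by
    have i1 : IntervalIntegrable (fun _ : ℝ => lam) volume a b :=
      continuous_const.intervalIntegrable _ _
    have i2 : IntervalIntegrable (fun t : ℝ => (lam ^ k)⁻¹ * Z t ^ (2 * (k + 1)))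
        volume a b := (continuous_const.mul (z_cont.pow _)).intervalIntegrable _ _
    rw [intervalIntegral.integral_add i1 i2, intervalIntegral.integral_const,
      intervalIntegral.integral_const_mul, smul_eq_mul]
  have h3 : ∫ t in a..b, Z t ^ (2 * (k + 1)) ≤ C * (P * lam ^ (k + 1)) := by
    rw [← hlk, hP, ← Real.mul_rpow (by norm_num) hT0.le]
    refine le_trans ?_ (hC (2 * T) (by linarith))
    exact intervalIntegral.integral_mono_interval (by linarith) hab (by linarith)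
      (ae_of_all _ fun t => pow_nonneg (z_nonneg t) _) (z_int _ _ _)
  have h4 : (lam ^ k)⁻¹ * ∫ t in a..b, Z t ^ (2 * (k + 1)) ≤ P * C * lam := by
    have h5 : (lam ^ k)⁻¹ * ∫ t in a..b, Z t ^ (2 * (k + 1)) ≤
        (lam ^ k)⁻¹ * (C * (P * lam ^ (k + 1))) := mul_le_mul_of_nonneg_left h3 (by positivity)
    refine h5.trans (le_of_eq ?_)
    rw [pow_succ]
    field_simp
  have h7 : (b - a) * lam ≤ 4 / ε * (lam * E) := by
    have h8 : b - a = 4 * Real.log T := by rw [ha, hb]; ring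
    rw [h8]
    calc 4 * Real.log T * lam ≤ 4 * (E / ε) * lam := by gcongr
      _ = _ := by ring
  have h9 : P * C * lam ≤ P * C * (lam * E) := by
    have : lam ≤ lam * E := le_mul_of_one_le_right hl0.le hE1
    exact mul_le_mul_of_nonneg_left this (by positivity)
  rw [hll]
  linarith

/-- a single moment bounds the zeta function -/
theorem mom_mu (hPMX : T_PMX) {k : ℕ} {θ : ℝ} (hθ : 0 ≤ θ) (h : Mom (k + 1) θ) :
    Mu (θ / (2 * (k + 1))) := by
  intro ε hε
  obtain ⟨C, T₀, hC1, hT20, hP⟩ := hPMX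
  have hε4 : 0 < ε / 2 := by positivity
  set β : ℝ := θ / (2 * (k + 1)) with hβ
  have hβ0 : 0 ≤ β := by positivity
  have hβ2 : θ / (k + 1) = 2 * β := by
    rw [hβ]
    field_simp
  obtain ⟨D, hD0, hD⟩ := mean1 hθ (ε / 2) hε4 h
  rw [hβ2] at hD
  -- compactness
  obtain ⟨B, hB⟩ := (isCompact_Icc (a := (0 : ℝ)) (b := T₀)).exists_bound_of_continuousOn
    z_cont.continuousOn
  have hpos : ∀ y : ℝ, T₀ ≤ y → Z y ^ 2 ≤ (C / (ε / 2) * (1 + D)) * (y ^ (β + ε)) ^ 2 := by
    intro y hy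
    have hy1 : 1 ≤ y := by linarith
    have hy0 : 0 < y := by linarith
    have h1 := hP y hy
    have h2 := hD y (by linarith)
    have h3 : Real.log y ≤ y ^ (ε / 2) / (ε / 2) := Real.log_le_rpow_div hy0.le hε4
    have h4 : 1 ≤ y ^ (2 * β + 2 * (ε / 2)) := Real.one_le_rpow hy1 (by positivity)
    have h5 : 1 + ∫ v in Icc (y - 2 * Real.log y) (y + 2 * Real.log y), Z v ^ 2 ≤
        (1 + D) * y ^ (2 * β + 2 * (ε / 2)) := by linarith
    have h6 : 0 ≤ 1 + ∫ v in Icc (y - 2 * Real.log y) (y + 2 * Real.log y), Z v ^ 2 := by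
      have : 0 ≤ ∫ v in Icc (y - 2 * Real.log y) (y + 2 * Real.log y), Z v ^ 2 :=
        integral_nonneg fun v => by positivity
      linarith
    calc Z y ^ 2 ≤ C * Real.log y *
          (1 + ∫ v in Icc (y - 2 * Real.log y) (y + 2 * Real.log y), Z v ^ 2) := h1
      _ ≤ C * (y ^ (ε / 2) / (ε / 2)) * ((1 + D) * y ^ (2 * β + 2 * (ε / 2))) := by
          apply mul_le_mul _ h5 h6 (by positivity)
          exact mul_le_mul_of_nonneg_left h3 (by linarith)
      _ = (C / (ε / 2) * (1 + D)) * (y ^ (ε / 2) * y ^ (2 * β + 2 * (ε / 2))) := by ring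
      _ ≤ (C / (ε / 2) * (1 + D)) * (y ^ (β + ε)) ^ 2 := by
          apply mul_le_mul_of_nonneg_left _ (by positivity)
          rw [← Real.rpow_add hy0, ← Real.rpow_natCast (y ^ (β + ε)) 2, ← Real.rpow_mul hy0.le]
          apply Real.rpow_le_rpow_of_exponent_le hy1
          push_cast
          linarith
  have hnn : ∀ y : ℝ, 0 ≤ y →
      Z y ≤ (max B 0 + √(C / (ε / 2) * (1 + D))) * (1 + y) ^ (β + ε) := by
    intro y hy
    have h1 : 1 ≤ (1 + y) ^ (β + ε) := Real.one_le_rpow (by linarith) (by positivity)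
    have h2 : 0 ≤ √(C / (ε / 2) * (1 + D)) := Real.sqrt_nonneg _
    have h3 : 0 ≤ max B 0 := le_max_right _ _
    rcases le_total y T₀ with h | h
    · have h4 := hB y ⟨hy, h⟩
      rw [Real.norm_of_nonneg (z_nonneg y)] at h4
      have h5 : Z y ≤ max B 0 := h4.trans (le_max_left _ _)
      nlinarith
    · have h4 := hpos y h
      have h5 : 0 ≤ y ^ (β + ε) := by positivity
      have h6 : Z y ≤ √(C / (ε / 2) * (1 + D)) * y ^ (β + ε) := by
        have h9 := Real.le_sqrt_of_sq_le h4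
        rwa [Real.sqrt_mul (by positivity), Real.sqrt_sq h5] at h9
      have h7 : y ^ (β + ε) ≤ (1 + y) ^ (β + ε) :=
        Real.rpow_le_rpow hy (by linarith) (by positivity)
      calc Z y ≤ √(C / (ε / 2) * (1 + D)) * y ^ (β + ε) := h6
        _ ≤ √(C / (ε / 2) * (1 + D)) * (1 + y) ^ (β + ε) := mul_le_mul_of_nonneg_left h7 h2
        _ ≤ _ := by
            apply mul_le_mul_of_nonneg_right _ (by linarith)
            linarith
  refine ⟨max B 0 + √(C / (ε / 2) * (1 + D)), fun y => ?_⟩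
  rcases le_total 0 y with h1 | h1
  · rw [abs_of_nonneg h1]
    exact hnn y h1
  · have h2 := hnn (-y) (by linarith)
    rw [z_neg] at h2
    rw [abs_of_nonpos h1]
    exact h2

end Pool.Agent.NBK
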