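import Pool.Agent.NBK.Kfin

/-!
# NBK: moments with real exponents (targets)

`Z t = |ζ(1/2 + it)|`, `w` the local mean square, `G N` the Gram matrix, `Qf N` its quadratic form,
`kr`, `om`, `tr` as in NBM/Defs.lean. All powers with the exponent `p` are real powers.

One job = one target `T_X`, proved as `theorem p_X (hypotheses = other targets) : T_X` in the NEW
file `Pool/Agent/NBK/P_X.lean` (import this file), helper lemmas in the namespace `X_`.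
-/

set_option autoImplicit false

open MeasureTheory Set
open scoped InnerProductSpace

namespace Pool.Agent.NBK

open Pool.Agent.NBL Pool.Agent.NBM

/-- the bound `T ^ (θ + ε)` for the `2p`-th moment, `p` real -/
def MomR (p θ : ℝ) : Prop := ∀ ε : ℝ, 0 < ε → ∃ C : ℝ, ∀ T : ℝ, 1 ≤ T →
  ∫ t in (0 : ℝ)..T, Z t ^ (2 * p) ≤ C * T ^ (θ + ε)

/-- `v`, `lam` diagonalise the quadratic form of `G N` -/
def Dg (N : ℕ) (v : OrthonormalBasis (Fin N) ℂ (EuclideanSpace ℂ (Fin N))) (lam : Fin N → ℝ) :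
    Prop :=
  (∀ i, 0 ≤ lam i) ∧ ∀ a : EuclideanSpace ℂ (Fin N), Qf N a = ∑ i, lam i * ‖⟪v i, a⟫_ℂ‖ ^ 2

/-- WSR. PROOF. NBM/P_WSM.lean with the natural number `k + 1` replaced by the real `p ≥ 1`:
`jens` from `convexOn_rpow`, `(1 + x) ^ p ≤ 2 ^ p (1 + x ^ p)` (`x ≤ 1` or `x ≥ 1`),
`Real.mul_rpow`, `Real.rpow_le_rpow`. Hypothesis `NBM.T_PMX`. -/
def T_WSR : Prop := ∀ p : ℝ, 1 ≤ p → ∃ C T₀ : ℝ, 1 ≤ C ∧ 20 ≤ T₀ ∧ ∀ T : ℝ, T₀ ≤ T →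
  ∫ t in (0 : ℝ)..T, Z t ^ (2 * p) ≤
    C * Real.log T ^ (2 * p) * (T + ∫ t in Icc (-(2 * T)) (2 * T), w t ^ p)

/-- LTR. PROOF. NBM/P_LBJ.lean and NBM/P_LBT.lean with the natural number `k` replaced by the real
`p ≥ 1` (`Real.rpow_arith_mean_le_arith_mean_rpow`; `Real.mul_rpow`). Hypotheses `NBM.T_PLN`,
`NBM.T_LBM`, `NBM.T_LBK`. -/
def T_LTR : Prop := ∀ p : ℝ, 1 ≤ p → ∃ C : ℝ, 0 < C ∧ ∀ N : ℕ, 20 ≤ N →
  ∀ (v : OrthonormalBasis (Fin (2 * N)) ℂ (EuclideanSpace ℂ (Fin (2 * N))))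
    (lam : Fin (2 * N) → ℝ), Dg (2 * N) v lam →
  ∫ t in Icc (-(N : ℝ) / 20) (N / 20), w t ^ p ≤ C * ∑ i, lam i ^ p

/-- LFR (hypotheses T_WSR, T_LTR). PROOF. NBM/P_LBF.lean with the natural number `k` replaced by
the real `p ≥ 1`. -/
def T_LFR : Prop := ∀ p θ : ℝ, 1 ≤ p → 1 ≤ θ →
  (∀ ε : ℝ, 0 < ε → ∃ C : ℝ, ∀ N : ℕ, 20 ≤ N →
    ∃ (v : OrthonormalBasis (Fin (2 * N)) ℂ (EuclideanSpace ℂ (Fin (2 * N))))
      (lam : Fin (2 * N) → ℝ), Dg (2 * N) v lam ∧ ∑ i, lam i ^ p ≤ C * (N : ℝ) ^ (θ + ε)) →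
  MomR p θ

/-- INR. PROOF. `UBF_.point` and `UBF_.int_le` in NBM/P_UBF.lean with the natural number `k`
replaced by the real `p ≥ 1` (`2 ^ k` becomes `2 ^ p`), and the last part of `p_UBF`:
`β = 1 - 1/(2p)`, `ε₀ = min ε (1/4)`, `log N ≤ C N ^ (ε₀/2)`. Hypothesis `NBM.T_KRB`. -/
def T_INR : Prop := ∀ p θ : ℝ, 1 ≤ p → 1 ≤ θ → θ ≤ p → MomR p θ → ∀ ε : ℝ, 0 < ε →
  ∃ C : ℝ, 0 ≤ C ∧ ∀ N : ℕ, 1 ≤ N →
    ∫⁻ t : ℝ, ENNReal.ofReal (Z t ^ (2 * p) * kr N t * om N (1 - 1 / (2 * p)) t ^ (-(p - 1))) ≤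
      ENNReal.ofReal (C * (N : ℝ) ^ (θ + ε))

end Pool.Agent.NBK
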