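import Pool.Agent.NBE.P_UPT
import Pool.Agent.NBE.P_SPC
import Pool.Agent.NBL.Nb3

/-!
# Traces bound multiplication by zeta outside a small subspace, all exponents
-/

set_option autoImplicit false

open MeasureTheory Complex Set Filter Topology
open scoped ENNReal InnerProductSpace ComplexConjugate

namespace Pool.Agent.NBK

open Pool.Agent.NBL Pool.Agent.NBR Pool.Agent.NBE Pool.Agent.NBE.UPT_

/-- traces bound multiplication by zeta outside a small subspace -/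
theorem upt (k : ℕ) (h : ℝ) (hh : 0 ≤ h) (hT : NBM.Tr k h) : ∀ ε θ : ℝ, 0 < ε → 0 < θ →
    h - k * ε < θ → ∃ N₀ : ℕ, ∀ N : ℕ, N₀ ≤ N → ∃ V : Submodule ℂ (Fin N → ℂ),
    (N : ℝ) - (N : ℝ) ^ θ ≤ Module.finrank ℂ V ∧ ∀ c ∈ V,
      ∫ t : ℝ, ‖riemannZeta (1 / 2 + t * I) * DF N c (1 / 2 + t * I)‖ ^ 2 / (1 / 4 + t ^ 2) ≤
        (N : ℝ) ^ ε * ∫ t : ℝ, ‖DF N c (1 / 2 + t * I)‖ ^ 2 / (1 / 4 + t ^ 2) := by
  intro ε θ hε hθ hlt
  set η : ℝ := (θ - (h - k * ε)) / 2 with hη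
  have hη0 : 0 < η := by rw [hη]; linarith
  obtain ⟨C, hC⟩ := hT η hη0
  obtain ⟨N₁, hN₁⟩ := ev (2 ^ k * |C|) (h + η - k * ε) θ hθ (by rw [hη]; linarith)
  refine ⟨max N₁ 2, fun N hN => ?_⟩
  have hNa : N₁ ≤ N := (le_max_left _ _).trans hN
  have hN2 : 2 ≤ N := (le_max_right _ _).trans hN
  obtain ⟨m, rfl⟩ : ∃ m, N = m + 1 := ⟨N - 1, by omega⟩
  have hm1 : 1 ≤ m := by omega
  have hm0 : (0 : ℝ) < m := by exact_mod_cast (by omega : 0 < m)
  have hcast : ((m + 1 : ℕ) : ℝ) = m + 1 := by push_cast; ring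
  have hev := hN₁ (m + 1) hNa
  set N : ℝ := ((m + 1 : ℕ) : ℝ) with hNd
  have hN0 : 0 < N := by rw [hcast]; linarith
  have hmN : (m : ℝ) ≤ N := by rw [hcast]; linarith
  set Λ : ℝ := N ^ ε / 2 with hΛ
  have hΛ0 : 0 < Λ := by rw [hΛ]; positivity
  obtain ⟨V, hV, hVa⟩ := p_SPC k m (C * (m : ℝ) ^ (h + η)) Λ hΛ0 (hC m hm1)
  refine ⟨V.map (Lm m), ?_, ?_⟩
  · rw [← (Submodule.equivMapOfInjective (Lm m) (Lm_inj m) V).finrank_eq]
    refine le_trans ?_ hV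
    have e1 : Λ ^ k = N ^ (k * ε) / 2 ^ k := by
      rw [hΛ, div_pow, ← Real.rpow_natCast (N ^ ε) k, ← Real.rpow_mul hN0.le, mul_comm ε]
    have e2 : C * (m : ℝ) ^ (h + η) / Λ ^ k ≤ 2 ^ k * |C| * N ^ (h + η - k * ε) := by
      rw [e1, Real.rpow_sub hN0, div_div_eq_mul_div, mul_div_assoc']
      refine div_le_div_of_nonneg_right ?_ (Real.rpow_nonneg hN0.le _)
      have h1 : C * (m : ℝ) ^ (h + η) ≤ |C| * N ^ (h + η) :=
        mul_le_mul (le_abs_self C) (Real.rpow_le_rpow hm0.le hmN (by linarith))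
          (Real.rpow_nonneg hm0.le _) (abs_nonneg C)
      have h2 := mul_le_mul_of_nonneg_right h1 (by positivity : (0 : ℝ) ≤ 2 ^ k)
      linarith
    have e3 : (m : ℝ) = N - 1 := by rw [hcast]; ring
    linarith
  · rintro c ⟨a, ha, rfl⟩
    have h1 := core m Λ hΛ0.le a (hVa a ha)
    have e4 : 2 * Λ = N ^ ε := by rw [hΛ]; ring
    rw [e4] at h1
    exact h1

/-- the sharp form of the inequality between the forms, from the growth of zeta -/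
theorem all_of_mu {A : ℝ} (hA : 0 ≤ A) (hA1 : A < 1 / 2) (h : Mu A) (e : ℝ) (he : 2 * A < e) :
    ∃ N₀ : ℕ, ∀ N : ℕ, N₀ ≤ N → ∀ c : Fin N → ℂ,
      ∫ t : ℝ, ‖riemannZeta (1 / 2 + t * I) * DF N c (1 / 2 + t * I)‖ ^ 2 / (1 / 4 + t ^ 2) ≤
        (N : ℝ) ^ e * ∫ t : ℝ, ‖DF N c (1 / 2 + t * I)‖ ^ 2 / (1 / 4 + t ^ 2) := by
  have h1 : ZDU A := (zdu_iff A).2 (nbu_of_besselSeq hA (besselSeq_of_bessel hA
    (bessel_of_mu hA hA1 h)))
  obtain ⟨B, hB1, hB2, hB3⟩ : ∃ B : ℝ, A < B ∧ B < 1 / 2 ∧ 2 * B < e := by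
    refine ⟨(A + min (1 / 2) (e / 2)) / 2, ?_, ?_, ?_⟩
    · have : A < min (1 / 2) (e / 2) := lt_min hA1 (by linarith)
      linarith
    · have : min (1 / 2) (e / 2) ≤ 1 / 2 := min_le_left _ _
      linarith
    · have : min (1 / 2) (e / 2) ≤ e / 2 := min_le_right _ _
      linarith
  obtain ⟨C, hC⟩ := h1 B hB1 hB2
  have t0 : Tendsto (fun N : ℕ => (N : ℝ) ^ (e - 2 * B)) atTop atTop :=
    (tendsto_rpow_atTop (by linarith)).comp tendsto_natCast_atTop_atTop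
  obtain ⟨N₁, hN₁⟩ := eventually_atTop.1 (t0.eventually_ge_atTop C)
  refine ⟨max N₁ 1, fun N hN c => ?_⟩
  have hNa : N₁ ≤ N := (le_max_left _ _).trans hN
  have hN1 : 1 ≤ N := (le_max_right _ _).trans hN
  have hN0 : (0 : ℝ) < N := by exact_mod_cast (by omega : 0 < N)
  have h2 := hC N (xa N c)
  have e1 : ∀ s : ℂ, DF N c s = ∑ n ∈ Finset.Icc 1 N, xa N c n * (n : ℂ) ^ (-s) := by
    intro s
    unfold DF
    rw [fin_sum fun n => xa N c n * (n : ℂ) ^ (-s)]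
    exact Finset.sum_congr rfl fun i _ => by rw [xa_apply]
  simp_rw [e1]
  refine h2.trans (mul_le_mul_of_nonneg_right ?_ (integral_nonneg fun t => by positivity))
  have h3 := hN₁ N hNa
  calc C * (N : ℝ) ^ (2 * B) ≤ (N : ℝ) ^ (e - 2 * B) * (N : ℝ) ^ (2 * B) :=
        mul_le_mul_of_nonneg_right h3 (Real.rpow_nonneg hN0.le _)
    _ = (N : ℝ) ^ e := by
        rw [← Real.rpow_add hN0]
        congr 1
        ring

end Pool.Agent.NBK
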