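import Pool.Agent.NBK.Cnt
import Pool.Agent.NBK.Upt
import Pool.Agent.NBK.Mu1

/-!
# Subspaces and traces
-/

set_option autoImplicit false

open MeasureTheory Complex Set Filter Topology
open scoped ENNReal InnerProductSpace ComplexConjugate

namespace Pool.Agent.NBK

open Pool.Agent.NBL Pool.Agent.NBR Pool.Agent.NBE

/-- `I(ζ D) ≤ N ^ e I(D)` on a subspace of codimension at most `x` -/
def Sub (e : ℝ) (N : ℕ) (x : ℝ) : Prop :=
  ∃ V : Submodule ℂ (Fin N → ℂ), (N : ℝ) - x ≤ Module.finrank ℂ V ∧ ∀ c ∈ V,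
    ∫ t : ℝ, ‖riemannZeta (1 / 2 + t * I) * DF N c (1 / 2 + t * I)‖ ^ 2 / (1 / 4 + t ^ 2) ≤
      (N : ℝ) ^ e * ∫ t : ℝ, ‖DF N c (1 / 2 + t * I)‖ ^ 2 / (1 / 4 + t ^ 2)

/-- the codimensions for all the levels -/
def Cod (k : ℕ) (h : ℝ) : Prop := ∀ e q : ℝ, 0 < e → h - k * e < q →
  ∀ᶠ N : ℕ in atTop, Sub e N ((N : ℝ) ^ q)

theorem tr_of_cod {k : ℕ} (hk : 1 ≤ k) {h : ℝ} (hh : 1 ≤ h) (H : Cod k h) : NBM.Tr k h := by
  intro ε hε
  have hk0 : (0 : ℝ) < k := by exact_mod_cast (by omega : 0 < k)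
  set δ : ℝ := ε / (k + 1) with hδ
  have hδ0 : 0 < δ := by positivity
  have hδe : (k + 1) * δ = ε := by rw [hδ]; field_simp
  obtain ⟨J, hJ⟩ := exists_nat_gt ((h + 1) / (k * δ))
  have hJ2 : h + 1 < J * (k * δ) := by
    rwa [div_lt_iff₀ (by positivity)] at hJ
  -- the levels
  have E1 : ∀ᶠ N : ℕ in atTop, ∀ j ∈ Finset.range J,
      Sub ((j + 1) * δ) N ((N : ℝ) ^ (h - k * ((j + 1) * δ) + δ)) := by
    rw [Filter.eventually_all_finset]
    intro j _
    exact H _ _ (by positivity) (by linarith)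
  have E2 : ∀ᶠ N : ℕ in atTop, Sub ((J + 1) * δ) N ((N : ℝ) ^ (-1 : ℝ)) := by
    refine H _ _ (by positivity) ?_
    have : 0 < k * δ := by positivity
    nlinarith
  obtain ⟨N₁, hN₁⟩ := eventually_atTop.1 (E1.and E2)
  have main : ∀ m : ℕ, max N₁ 2 ≤ m + 1 →
      ((NBM.G m) ^ k).trace ≤ (J + 1) * ((m + 1 : ℕ) : ℝ) ^ (h + ε) := by
    intro m hm
    have hm1 : N₁ ≤ m + 1 := (le_max_left _ _).trans hm
    have hm2 : 2 ≤ m + 1 := (le_max_right _ _).trans hm
    obtain ⟨F1, F2⟩ := hN₁ (m + 1) hm1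
    obtain ⟨v, lam, hlam0, hq, htr⟩ := NBM.p_SPE m
    rw [htr k]
    set N : ℝ := ((m + 1 : ℕ) : ℝ) with hN
    have hN2 : (2 : ℝ) ≤ N := by rw [hN]; exact_mod_cast hm2
    have hN0 : 0 < N := by linarith
    have hN1 : 1 ≤ N := by linarith
    set y : ℝ := N ^ δ with hy
    have hy1 : 1 ≤ y := Real.one_le_rpow hN1 hδ0.le
    have hyp : ∀ j : ℕ, y ^ j = N ^ (j * δ) := by
      intro j
      rw [hy, ← Real.rpow_natCast, ← Real.rpow_mul hN0.le, mul_comm δ]
    -- counting
    have cnt : ∀ (e x : ℝ), Sub e (m + 1) x →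
        ((Finset.univ.filter fun i => N ^ e < lam i).card : ℝ) ≤ x := by
      rintro e x ⟨V, hV1, hV2⟩
      have h1 := count hq (Real.rpow_nonneg hN0.le e) hV2
      have h2 : ((Finset.univ.filter fun i => N ^ e < lam i).card : ℝ) + Module.finrank ℂ V ≤
          N := by
        rw [hN]
        exact_mod_cast h1
      linarith
    have top : ∀ i, lam i ≤ y ^ (J + 1) := by
      have h1 := cnt _ _ F2
      have h2 : N ^ (-1 : ℝ) < 1 := by
        rw [Real.rpow_neg_one]
        exact inv_lt_one_of_one_lt₀ (by linarith)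
      have h3 : (Finset.univ.filter fun i => N ^ ((J + 1) * δ) < lam i).card < 1 := by
        exact_mod_cast h1.trans_lt h2
      have h4 : (Finset.univ.filter fun i => N ^ ((J + 1) * δ) < lam i) = ∅ := by
        rw [← Finset.card_eq_zero]
        omega
      intro i
      by_contra h5
      have h6 : i ∈ (Finset.univ.filter fun i => N ^ ((J + 1) * δ) < lam i) := by
        rw [Finset.mem_filter]
        refine ⟨Finset.mem_univ i, ?_⟩
        rw [not_le, hyp] at h5
        push_cast at h5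
        exact h5
      rw [h4] at h6
      exact absurd h6 (Finset.notMem_empty i)
    have s1 : ∑ i, lam i ^ k ≤ ∑ i : Fin m, (y ^ k +
        ∑ j ∈ Finset.range J, if y ^ (j + 1) < lam i then (y ^ (j + 2)) ^ k else 0) :=
      Finset.sum_le_sum fun i _ => layer k (hlam0 i) hy1 J (top i)
    refine s1.trans ?_
    rw [Finset.sum_add_distrib, Finset.sum_comm, Finset.sum_const, Finset.card_univ,
      Fintype.card_fin, nsmul_eq_mul]
    have s2 : (m : ℝ) * y ^ k ≤ N ^ (h + ε) := by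
      calc (m : ℝ) * y ^ k ≤ N ^ (1 : ℝ) * N ^ (k * δ) := by
            rw [hyp, Real.rpow_one]
            refine mul_le_mul_of_nonneg_right ?_ (Real.rpow_nonneg hN0.le _)
            rw [hN]
            push_cast
            linarith
        _ = N ^ (1 + k * δ) := by rw [← Real.rpow_add hN0]
        _ ≤ N ^ (h + ε) := Real.rpow_le_rpow_of_exponent_le hN1 (by nlinarith)
    have s3 : ∀ j ∈ Finset.range J,
        ∑ i, (if y ^ (j + 1) < lam i then (y ^ (j + 2)) ^ k else 0) ≤ N ^ (h + ε) := by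
      intro j hj
      rw [← Finset.sum_filter, Finset.sum_const, nsmul_eq_mul]
      have h1 := cnt _ _ (F1 j hj)
      have h2 : y ^ (j + 1) = N ^ ((j + 1) * δ) := by
        rw [hyp]
        push_cast
        rfl
      rw [h2]
      calc ((Finset.univ.filter fun i => N ^ ((j + 1) * δ) < lam i).card : ℝ) *
            (y ^ (j + 2)) ^ k ≤ N ^ (h - k * ((j + 1) * δ) + δ) * (y ^ (j + 2)) ^ k :=
            mul_le_mul_of_nonneg_right h1 (by positivity)
        _ = N ^ (h + ε) := by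
            rw [← pow_mul, hyp, ← Real.rpow_add hN0]
            congr 1
            rw [← hδe]
            push_cast
            ring
    have s4 : ∑ j ∈ Finset.range J,
        ∑ i, (if y ^ (j + 1) < lam i then (y ^ (j + 2)) ^ k else 0) ≤ J * N ^ (h + ε) := by
      refine (Finset.sum_le_sum s3).trans (le_of_eq ?_)
      rw [Finset.sum_const, Finset.card_range, nsmul_eq_mul]
    linarith
  -- all N
  refine ⟨(J + 1) * 2 ^ (h + ε) +
    ∑ m ∈ Finset.range (max N₁ 2), |((NBM.G m) ^ k).trace|, fun m hm => ?_⟩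
  have hm1 : (1 : ℝ) ≤ m := by exact_mod_cast hm
  have hm0 : (0 : ℝ) < m := by linarith
  have hP : 1 ≤ (m : ℝ) ^ (h + ε) := Real.one_le_rpow hm1 (by linarith)
  have hS : 0 ≤ ∑ m ∈ Finset.range (max N₁ 2), |((NBM.G m) ^ k).trace| :=
    Finset.sum_nonneg fun _ _ => abs_nonneg _
  have hS2 : (0 : ℝ) ≤ (J + 1) * 2 ^ (h + ε) := by positivity
  rcases le_or_gt (max N₁ 2) (m + 1) with h1 | h1
  · have h2 := main m h1
    have h3 : ((m + 1 : ℕ) : ℝ) ^ (h + ε) ≤ 2 ^ (h + ε) * (m : ℝ) ^ (h + ε) := by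
      rw [← Real.mul_rpow (by norm_num) hm0.le]
      apply Real.rpow_le_rpow (by positivity) _ (by linarith)
      push_cast
      linarith
    have h4 : ((J : ℝ) + 1) * ((m + 1 : ℕ) : ℝ) ^ (h + ε) ≤
        (J + 1) * (2 ^ (h + ε) * (m : ℝ) ^ (h + ε)) :=
      mul_le_mul_of_nonneg_left h3 (by positivity)
    nlinarith
  · have h2 : |((NBM.G m) ^ k).trace| ≤
        ∑ m ∈ Finset.range (max N₁ 2), |((NBM.G m) ^ k).trace| :=
      Finset.single_le_sum (f := fun m => |((NBM.G m) ^ k).trace|)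
        (fun _ _ => abs_nonneg _) (Finset.mem_range.2 (by omega))
    have h3 := le_abs_self ((NBM.G m) ^ k).trace
    nlinarith

end Pool.Agent.NBK
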